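import Mathlib

set_option autoImplicit false

/-!
# Connected subgraphs: transfer along embeddings
-/

open SimpleGraph

namespace Q105.SubT

variable {V V1 V2 : Type*}

/-- `true`: acyclic subgraphs; `false`: induced subgraphs. -/
def Prp (b : Bool) {G : SimpleGraph V} (T : G.Subgraph) : Prop :=
  match b with
  | true => T.coe.IsAcyclic
  | false => T.IsInduced

/-- Connected subgraphs with the property, containing `X`. -/
def Fam (b : Bool) (G : SimpleGraph V) (X : Set V) : Set G.Subgraph :=
  {T | T.Connected ∧ Prp b T ∧ X ⊆ T.verts}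

section Embedding

variable {G1 : SimpleGraph V1} {G : SimpleGraph V} (e : G1 ↪g G)

lemma map_adj (T : G1.Subgraph) (u v : V1) :
    (T.map e.toHom).Adj (e u) (e v) ↔ T.Adj u v := by
  constructor
  · rintro ⟨a, b, h, ha, hb⟩
    have ha' := e.injective ha
    have hb' := e.injective hb
    subst ha' hb'
    exact h
  · intro h
    exact ⟨u, v, h, rfl, rfl⟩

lemma map_verts (T : G1.Subgraph) : (T.map e.toHom).verts = e '' T.verts := rfl

lemma mem_map_verts (T : G1.Subgraph) (u : V1) : e u ∈ (T.map e.toHom).verts ↔ u ∈ T.verts := by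
  rw [map_verts]
  exact e.injective.mem_set_image

lemma comap_adj (T : G.Subgraph) (u v : V1) :
    (T.comap e.toHom).Adj u v ↔ T.Adj (e u) (e v) := by
  constructor
  · intro h; exact h.2
  · intro h; exact ⟨e.map_adj_iff.1 h.adj_sub, h⟩

lemma mem_comap_verts (T : G.Subgraph) (u : V1) :
    u ∈ (T.comap e.toHom).verts ↔ e u ∈ T.verts := Iff.rfl

lemma comap_map (T : G1.Subgraph) : (T.map e.toHom).comap e.toHom = T := by
  ext u v
  · rw [mem_comap_verts, mem_map_verts]
  · rw [comap_adj, map_adj]

lemma map_comap (T : G.Subgraph) (h : T.verts ⊆ Set.range e) :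
    (T.comap e.toHom).map e.toHom = T := by
  ext x y
  · constructor
    · rintro ⟨u, hu, rfl⟩; exact hu
    · intro hx
      obtain ⟨u, rfl⟩ := h hx
      exact ⟨u, hx, rfl⟩
  · constructor
    · rintro ⟨a, b, h, rfl, rfl⟩
      exact h.2
    · intro hxy
      obtain ⟨u, rfl⟩ := h hxy.fst_mem
      obtain ⟨v, rfl⟩ := h hxy.snd_mem
      exact ⟨u, v, (comap_adj e T u v).2 hxy, rfl, rfl⟩

lemma map_injective : Function.Injective (fun T : G1.Subgraph => T.map e.toHom) := by
  intro T T' h
  rw [← comap_map e T, ← comap_map e T']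
  exact congrArg _ h

/-- The isomorphism of a subgraph with its image. -/
noncomputable def isoMap (T : G1.Subgraph) : T.coe ≃g (T.map e.toHom).coe where
  toEquiv := Equiv.Set.image e T.verts e.injective
  map_rel_iff' := by
    intro a b
    exact map_adj e T a b

lemma connected_map (T : G1.Subgraph) : (T.map e.toHom).Connected ↔ T.Connected := by
  rw [Subgraph.connected_iff', Subgraph.connected_iff']
  exact ((isoMap e T).connected_iff).symm

lemma prp_map (b : Bool) (T : G1.Subgraph) : Prp b (T.map e.toHom) ↔ Prp b T := by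
  cases b
  · constructor
    · intro h u hu v hv huv
      have := h (show e u ∈ (T.map e.toHom).verts from (mem_map_verts e T u).2 hu)
        (show e v ∈ (T.map e.toHom).verts from (mem_map_verts e T v).2 hv) (e.map_adj_iff.2 huv)
      exact (map_adj e T u v).1 this
    · rintro h _ ⟨u, hu, rfl⟩ _ ⟨v, hv, rfl⟩ huv
      exact (map_adj e T u v).2 (h hu hv (e.map_adj_iff.1 huv))
  · exact ((isoMap e T).isAcyclic_iff).symm

lemma ncard_map (T : G1.Subgraph) : (T.map e.toHom).verts.ncard = T.verts.ncard := by
  rw [map_verts]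
  exact Set.ncard_image_of_injective _ e.injective

end Embedding

end Q105.SubT
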