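import Pool.Agent.Q105.SubT.Glue

set_option autoImplicit false

/-!
# Counting connected subgraphs of a glued graph
-/

open SimpleGraph Finset

namespace Q105.SubT

variable {V V1 V2 : Type*}

/-- The family as a finite set. -/
noncomputable def famF [Finite V] (b : Bool) (G : SimpleGraph V) (X : Set V) :
    Finset G.Subgraph := (Set.toFinite (Fam b G X)).toFinset

lemma mem_famF [Finite V] {b : Bool} {G : SimpleGraph V} {X : Set V} {T : G.Subgraph} :
    T ∈ famF b G X ↔ T.Connected ∧ Prp b T ∧ X ⊆ T.verts := by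
  unfold famF
  rw [Set.Finite.mem_toFinset]
  rfl

open Classical in
/-- Sum of `f` of the order over the family. -/
noncomputable def S [Finite V] (f : ℕ → ℚ) (b : Bool) (G : SimpleGraph V) (X : Set V) : ℚ :=
  ∑ T ∈ famF b G X, f T.verts.ncard

open Classical in
/-- Sum of `f` of the order over the members avoiding `r`. -/
noncomputable def Sav [Finite V] (f : ℕ → ℚ) (b : Bool) (G : SimpleGraph V) (X : Set V) (r : V) :
    ℚ := ∑ T ∈ famF b G X with r ∉ T.verts, f T.verts.ncard

lemma Sav_eq [Finite V] (f : ℕ → ℚ) (b : Bool) (G : SimpleGraph V) (X : Set V) (r : V) :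
    Sav f b G X r = S f b G X - S f b G (insert r X) := by
  classical
  unfold Sav S
  rw [eq_sub_iff_add_eq, ← Finset.sum_filter_add_sum_filter_not (famF b G X)
    (fun T => r ∈ T.verts), add_comm]
  congr 1
  refine Finset.sum_congr ?_ fun _ _ => rfl
  ext T
  rw [Finset.mem_filter, mem_famF, mem_famF, Set.insert_subset_iff]
  tauto

section

variable [Finite V] [Finite V1] [Finite V2]
  {G : SimpleGraph V} {G1 : SimpleGraph V1} {G2 : SimpleGraph V2}
  {e1 : G1 ↪g G} {e2 : G2 ↪g G} {r1 : V1} {r2 : V2}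

theorem sum_glue (h : Glue e1 e2 r1 r2) (f : ℕ → ℚ) (b : Bool) (X : Set V1) :
    S f b G (e1 '' X) = Sav f b G1 X r1 +
      (∑ T1 ∈ famF b G1 (insert r1 X), ∑ T2 ∈ famF b G2 {r2},
        f (T1.verts.ncard + T2.verts.ncard - 1)) +
      (by classical exact if X = ∅ then Sav f b G2 ∅ r2 else 0) := by
  classical
  unfold S
  rw [← Finset.sum_filter_add_sum_filter_not (famF b G (e1 '' X)) (fun T => e1 r1 ∈ T.verts),
    ← Finset.sum_filter_add_sum_filter_not
      ((famF b G (e1 '' X)).filter (fun T => ¬ e1 r1 ∈ T.verts))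
      (fun T => T.verts ⊆ Set.range e1)]
  have hA : ∑ T ∈ famF b G (e1 '' X) with e1 r1 ∈ T.verts, f T.verts.ncard =
      ∑ T1 ∈ famF b G1 (insert r1 X), ∑ T2 ∈ famF b G2 {r2},
        f (T1.verts.ncard + T2.verts.ncard - 1) := by
    rw [← Finset.sum_product']
    refine Finset.sum_nbij' (fun T => (T.comap e1.toHom, T.comap e2.toHom))
      (fun p => join e1 e2 p.1 p.2) ?_ ?_ ?_ ?_ ?_
    · intro T hT
      rw [Finset.mem_filter, mem_famF] at hT
      obtain ⟨⟨hc, hp, hX⟩, hr⟩ := hT
      rw [Finset.mem_product, mem_famF, mem_famF]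
      refine ⟨⟨comap_connected h T hc hr, comap_prp b T hp, ?_⟩,
        comap_connected h.symm T hc (h.root ▸ hr), comap_prp b T hp, ?_⟩
      · rw [Set.insert_subset_iff]
        exact ⟨hr, fun x hx => hX ⟨x, hx, rfl⟩⟩
      · rw [Set.singleton_subset_iff]
        show e2 r2 ∈ T.verts
        rw [← h.root]; exact hr
    · intro p hp
      rw [Finset.mem_product, mem_famF, mem_famF] at hp
      obtain ⟨⟨hc1, hp1, hX1⟩, hc2, hp2, hX2⟩ := hp
      rw [Set.insert_subset_iff] at hX1
      rw [Set.singleton_subset_iff] at hX2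
      rw [Finset.mem_filter, mem_famF]
      refine ⟨⟨join_connected h _ _ hX1.1 hX2 hc1 hc2, join_prp h b _ _ hX1.1 hX2 hc1 hc2 hp1 hp2,
        ?_⟩, ?_⟩
      · rintro _ ⟨x, hx, rfl⟩
        exact Or.inl ⟨x, hX1.2 hx, rfl⟩
      · exact Or.inl ⟨r1, hX1.1, rfl⟩
    · intro T _
      exact join_comap h T
    · intro p hp
      rw [Finset.mem_product, mem_famF, mem_famF] at hp
      obtain ⟨⟨hc1, hp1, hX1⟩, hc2, hp2, hX2⟩ := hp
      rw [Set.insert_subset_iff] at hX1
      rw [Set.singleton_subset_iff] at hX2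
      exact Prod.ext (comap_join h _ _ hX1.1) (comap_join' h _ _ hX2)
    · intro T hT
      rw [Finset.mem_filter, mem_famF] at hT
      obtain ⟨⟨hc, hp, hX⟩, hr⟩ := hT
      have h3 := join_ncard h (T.comap e1.toHom) (T.comap e2.toHom) hr
        (show e2 r2 ∈ T.verts by rw [← h.root]; exact hr)
      rw [join_comap h T] at h3
      congr 1
      show T.verts.ncard = (T.comap e1.toHom).verts.ncard + (T.comap e2.toHom).verts.ncard - 1
      omega
  have hB : ∑ T ∈ (famF b G (e1 '' X)).filter (fun T => ¬ e1 r1 ∈ T.verts) with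
      T.verts ⊆ Set.range e1, f T.verts.ncard = Sav f b G1 X r1 := by
    unfold Sav
    refine Finset.sum_nbij' (fun T => T.comap e1.toHom) (fun T => T.map e1.toHom) ?_ ?_ ?_ ?_ ?_
    · intro T hT
      rw [Finset.mem_filter, Finset.mem_filter, mem_famF] at hT
      obtain ⟨⟨⟨hc, hp, hX⟩, hr⟩, hran⟩ := hT
      rw [Finset.mem_filter, mem_famF]
      refine ⟨⟨?_, comap_prp b T hp, fun x hx => hX ⟨x, hx, rfl⟩⟩, hr⟩
      rw [← connected_map e1, map_comap e1 T hran]
      exact hc
    · intro T hT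
      rw [Finset.mem_filter, mem_famF] at hT
      obtain ⟨⟨hc, hp, hX⟩, hr⟩ := hT
      rw [Finset.mem_filter, Finset.mem_filter, mem_famF]
      refine ⟨⟨⟨(connected_map e1 T).2 hc, (prp_map e1 b T).2 hp, Set.image_mono hX⟩, ?_⟩, ?_⟩
      · rw [mem_map_verts]; exact hr
      · rintro _ ⟨x, _, rfl⟩; exact ⟨x, rfl⟩
    · intro T hT
      rw [Finset.mem_filter] at hT
      exact map_comap e1 T hT.2
    · intro T _
      exact comap_map e1 T
    · intro T hT
      rw [Finset.mem_filter] at hT
      conv_lhs => rw [← map_comap e1 T hT.2]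
      rw [ncard_map]
  have hC : ∑ T ∈ (famF b G (e1 '' X)).filter (fun T => ¬ e1 r1 ∈ T.verts) with
      ¬ T.verts ⊆ Set.range e1, f T.verts.ncard = if X = ∅ then Sav f b G2 ∅ r2 else 0 := by
    have key : ∀ T : G.Subgraph, T.Connected → e1 r1 ∉ T.verts → ¬ T.verts ⊆ Set.range e1 →
        T.verts ⊆ Set.range e2 ∧ ∀ x, e1 x ∉ T.verts := by
      intro T hc hr hran
      have hx : ∀ x, e1 x ∉ T.verts := fun x hx => hran (avoid h T hc hr x hx)
      refine ⟨?_, hx⟩
      intro y hy
      rcases h.cover y with ⟨v, rfl⟩ | ⟨v, rfl⟩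
      · exact absurd hy (hx v)
      · exact ⟨v, rfl⟩
    split_ifs with hX0
    · subst hX0
      unfold Sav
      refine Finset.sum_nbij' (fun T => T.comap e2.toHom) (fun T => T.map e2.toHom) ?_ ?_ ?_ ?_ ?_
      · intro T hT
        rw [Finset.mem_filter, Finset.mem_filter, mem_famF] at hT
        obtain ⟨⟨⟨hc, hp, hX⟩, hr⟩, hran⟩ := hT
        rw [Finset.mem_filter, mem_famF]
        refine ⟨⟨?_, comap_prp b T hp, Set.empty_subset _⟩, ?_⟩
        · rw [← connected_map e2, map_comap e2 T (key T hc hr hran).1]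
          exact hc
        · show e2 r2 ∉ T.verts
          rw [← h.root]; exact hr
      · intro T hT
        rw [Finset.mem_filter, mem_famF] at hT
        obtain ⟨⟨hc, hp, hX⟩, hr⟩ := hT
        rw [Finset.mem_filter, Finset.mem_filter, mem_famF]
        refine ⟨⟨⟨(connected_map e2 T).2 hc, (prp_map e2 b T).2 hp, by simp⟩, ?_⟩, ?_⟩
        · rw [h.root, mem_map_verts]; exact hr
        · intro hran
          obtain ⟨v, hv⟩ := hc.nonempty
          obtain ⟨u, hu⟩ := hran ⟨v, hv, rfl⟩
          have := (h.meet u v hu).2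
          rw [this] at hv
          exact hr hv
      · intro T hT
        rw [Finset.mem_filter, Finset.mem_filter, mem_famF] at hT
        obtain ⟨⟨⟨hc, hp, hX⟩, hr⟩, hran⟩ := hT
        exact map_comap e2 T (key T hc hr hran).1
      · intro T _
        exact comap_map e2 T
      · intro T hT
        rw [Finset.mem_filter, Finset.mem_filter, mem_famF] at hT
        obtain ⟨⟨⟨hc, hp, hX⟩, hr⟩, hran⟩ := hT
        conv_lhs => rw [← map_comap e2 T (key T hc hr hran).1]
        rw [ncard_map]
    · refine Finset.sum_eq_zero fun T hT => ?_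
      exfalso
      rw [Finset.mem_filter, Finset.mem_filter, mem_famF] at hT
      obtain ⟨⟨⟨hc, hp, hX⟩, hr⟩, hran⟩ := hT
      obtain ⟨x, hx⟩ := Set.nonempty_iff_ne_empty.2 hX0
      exact (key T hc hr hran).2 x (hX ⟨x, hx, rfl⟩)
  rw [hA, hB, hC]
  ring

/-- number of members -/
noncomputable def cnt (b : Bool) (G : SimpleGraph V) (X : Set V) : ℚ := S (fun _ => 1) b G X

/-- total order of the members -/
noncomputable def tot (b : Bool) (G : SimpleGraph V) (X : Set V) : ℚ := S (fun n => (n : ℚ)) b G X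

theorem cnt_glue (h : Glue e1 e2 r1 r2) (b : Bool) (X : Set V1) :
    cnt b G (e1 '' X) = cnt b G1 X - cnt b G1 (insert r1 X) +
      cnt b G1 (insert r1 X) * cnt b G2 {r2} +
      (by classical exact if X = ∅ then cnt b G2 ∅ - cnt b G2 {r2} else 0) := by
  unfold cnt
  rw [sum_glue h, Sav_eq, Sav_eq]
  congr 2
  · unfold S
    rw [Finset.sum_mul_sum]
    simp
  · simp

theorem tot_glue (h : Glue e1 e2 r1 r2) (b : Bool) (X : Set V1) :
    tot b G (e1 '' X) = tot b G1 X - tot b G1 (insert r1 X) +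
      (tot b G1 (insert r1 X) * cnt b G2 {r2} + cnt b G1 (insert r1 X) * tot b G2 {r2} -
        cnt b G1 (insert r1 X) * cnt b G2 {r2}) +
      (by classical exact if X = ∅ then tot b G2 ∅ - tot b G2 {r2} else 0) := by
  unfold tot cnt
  rw [sum_glue h, Sav_eq, Sav_eq]
  congr 2
  · unfold S
    rw [Finset.sum_mul_sum, Finset.sum_mul_sum, Finset.sum_mul_sum, ← Finset.sum_add_distrib,
      ← Finset.sum_sub_distrib]
    refine Finset.sum_congr rfl fun T1 hT1 => ?_
    rw [← Finset.sum_add_distrib, ← Finset.sum_sub_distrib]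
    refine Finset.sum_congr rfl fun T2 hT2 => ?_
    rw [mem_famF] at hT1
    have : 0 < T1.verts.ncard := by
      rw [Set.ncard_pos (Set.toFinite _)]
      exact hT1.1.nonempty
    rw [Nat.cast_sub (by omega)]
    push_cast
    ring
  · simp

end

end Q105.SubT
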