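import Pool.Agent.Q105.SubT.Count

set_option autoImplicit false

/-!
# Connected subgraphs of a cycle
-/

open SimpleGraph Finset

namespace Q105.SubT

/-- The cycle on `ZMod g`. -/
def cyc (g : ℕ) : SimpleGraph (ZMod g) where
  Adj x y := x ≠ y ∧ (y = x + 1 ∨ x = y + 1)
  symm := ⟨fun _ _ h => ⟨h.1.symm, h.2.symm⟩⟩
  loopless := ⟨fun _ h => h.1 rfl⟩

section

variable {g : ℕ}

lemma cast_inj (x y : ℤ) (h : |x - y| < g) (hxy : (x : ZMod g) = y) : x = y := by
  rw [ZMod.intCast_eq_intCast_iff_dvd_sub] at hxy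
  rw [abs_sub_comm] at h
  have := Int.eq_zero_of_abs_lt_dvd hxy h
  omega

lemma one_ne (hg : 3 ≤ g) (z : ZMod g) : z ≠ z + 1 := by
  intro h
  have h1 : ((0 : ℤ) : ZMod g) = ((1 : ℤ) : ZMod g) := by
    push_cast
    exact (add_eq_left.1 h.symm).symm
  have := cast_inj 0 1 (by norm_num; omega) h1
  omega

/-- The path `v - i, …, v + j`. -/
def pth (v : ZMod g) (i j : ℕ) : (cyc g).Subgraph where
  verts := {p | ∃ x : ℤ, -(i : ℤ) ≤ x ∧ x ≤ j ∧ p = v + (x : ZMod g)}
  Adj p q := p ≠ q ∧ ∃ x : ℤ, -(i : ℤ) ≤ x ∧ x < j ∧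
    ((p = v + (x : ZMod g) ∧ q = v + ((x + 1 : ℤ) : ZMod g)) ∨
      (q = v + (x : ZMod g) ∧ p = v + ((x + 1 : ℤ) : ZMod g)))
  adj_sub := by
    rintro p q ⟨hne, x, _, _, h | h⟩
    · refine ⟨hne, Or.inl ?_⟩
      rw [h.1, h.2]; push_cast; ring
    · refine ⟨hne, Or.inr ?_⟩
      rw [h.1, h.2]; push_cast; ring
  edge_vert := by
    rintro p q ⟨hne, x, hx1, hx2, h | h⟩
    · exact ⟨x, hx1, hx2.le, h.1⟩
    · exact ⟨x + 1, by omega, by omega, h.2⟩
  symm := ⟨fun p q ⟨hne, x, h1, h2, h⟩ => ⟨hne.symm, x, h1, h2, h.symm⟩⟩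

lemma pth_mem (v : ZMod g) (i j : ℕ) (x : ℤ) (h1 : -(i : ℤ) ≤ x) (h2 : x ≤ j) :
    v + (x : ZMod g) ∈ (pth v i j).verts := ⟨x, h1, h2, rfl⟩

lemma pth_adj (hg : 3 ≤ g) (v : ZMod g) (i j : ℕ) (x : ℤ) (h1 : -(i : ℤ) ≤ x) (h2 : x < j) :
    (pth v i j).Adj (v + (x : ZMod g)) (v + ((x + 1 : ℤ) : ZMod g)) := by
  refine ⟨?_, x, h1, h2, Or.inl ⟨rfl, rfl⟩⟩
  have := one_ne hg (v + (x : ZMod g))
  push_cast
  rwa [← add_assoc]

lemma pth_self (v : ZMod g) (i j : ℕ) : v ∈ (pth v i j).verts :=
  ⟨0, by omega, by omega, by simp⟩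

lemma pth_connected (hg : 3 ≤ g) (v : ZMod g) (i j : ℕ) : (pth v i j).Connected := by
  rw [Subgraph.connected_iff', connected_iff_exists_forall_reachable]
  refine ⟨⟨v, pth_self v i j⟩, ?_⟩
  have hpos : ∀ n : ℕ, ∀ h : (n : ℤ) ≤ j, (pth v i j).coe.Reachable ⟨v, pth_self v i j⟩
      ⟨v + ((n : ℤ) : ZMod g), pth_mem v i j n (by omega) h⟩ := by
    intro n
    induction n with
    | zero =>
      intro h
      have : (⟨v, pth_self v i j⟩ : (pth v i j).verts) =
          ⟨v + (((0 : ℕ) : ℤ) : ZMod g), pth_mem v i j _ (by omega) h⟩ := by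
        apply Subtype.ext; simp
      rw [← this]
    | succ n ih =>
      intro h
      refine (ih (by omega)).trans ?_
      apply Adj.reachable
      exact pth_adj hg v i j n (by omega) (by omega)
  have hneg : ∀ n : ℕ, ∀ h : -(i : ℤ) ≤ -(n : ℤ), (pth v i j).coe.Reachable ⟨v, pth_self v i j⟩
      ⟨v + ((-(n : ℤ) : ℤ) : ZMod g), pth_mem v i j _ h (by omega)⟩ := by
    intro n
    induction n with
    | zero =>
      intro h
      have : (⟨v, pth_self v i j⟩ : (pth v i j).verts) =
          ⟨v + ((-((0 : ℕ) : ℤ) : ℤ) : ZMod g), pth_mem v i j _ h (by omega)⟩ := by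
        apply Subtype.ext; simp
      rw [← this]
    | succ n ih =>
      intro h
      refine (ih (by omega)).trans ?_
      apply Adj.reachable
      have h1 := pth_adj hg v i j (-((n + 1 : ℕ) : ℤ)) h (by omega)
      have h2 : (-((n + 1 : ℕ) : ℤ) + 1) = -(n : ℤ) := by push_cast; ring
      rw [h2] at h1
      exact h1.symm
  rintro ⟨_, x, hx1, hx2, rfl⟩
  rcases le_total 0 x with h | h
  · obtain ⟨n, rfl⟩ := Int.eq_ofNat_of_zero_le h
    exact hpos n hx2
  · obtain ⟨n, hn⟩ := Int.eq_ofNat_of_zero_le (neg_nonneg.2 h)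
    have : x = -(n : ℤ) := by omega
    subst this
    exact hneg n hx1

lemma pth_verts_eq (v : ZMod g) (i j : ℕ) :
    (pth v i j).verts = (fun x : ℤ => v + (x : ZMod g)) '' (Set.Icc (-(i : ℤ)) j) := by
  ext p
  constructor
  · rintro ⟨x, h1, h2, rfl⟩; exact ⟨x, ⟨h1, h2⟩, rfl⟩
  · rintro ⟨x, ⟨h1, h2⟩, rfl⟩; exact ⟨x, h1, h2, rfl⟩

lemma pth_ncard (v : ZMod g) (i j : ℕ) (h : i + j + 1 ≤ g) :
    (pth v i j).verts.ncard = i + j + 1 := by
  rw [pth_verts_eq, Set.InjOn.ncard_image]
  · rw [← Finset.coe_Icc, Set.ncard_coe_finset, Int.card_Icc]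
    omega
  · intro x hx y hy hxy
    rw [Set.mem_Icc] at hx hy
    refine cast_inj x y ?_ (add_left_cancel hxy)
    rw [abs_lt]; constructor <;> omega

lemma pth_edges (v : ZMod g) (i j : ℕ) : (pth v i j).edgeSet.ncard ≤ i + j := by
  have hsub : (pth v i j).edgeSet ⊆ (fun x : ℤ => s(v + (x : ZMod g), v + ((x + 1 : ℤ) : ZMod g))) ''
      (Set.Ico (-(i : ℤ)) j) := by
    intro e
    induction e with
    | _ p q =>
      rintro ⟨hne, x, h1, h2, h | h⟩
      · have hp : p = v + (x : ZMod g) := h.1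
        have hq : q = v + ((x + 1 : ℤ) : ZMod g) := h.2
        exact ⟨x, ⟨h1, h2⟩, by rw [hp, hq]⟩
      · have hq : q = v + (x : ZMod g) := h.1
        have hp : p = v + ((x + 1 : ℤ) : ZMod g) := h.2
        exact ⟨x, ⟨h1, h2⟩, by rw [hp, hq]; exact Sym2.eq_swap⟩
  refine (Set.ncard_le_ncard hsub ((Set.finite_Ico _ _).image _)).trans ?_
  refine (Set.ncard_image_le (Set.finite_Ico _ _)).trans ?_
  rw [← Finset.coe_Ico, Set.ncard_coe_finset, Int.card_Ico]
  omega

lemma pth_acyclic [NeZero g] (hg : 3 ≤ g) (v : ZMod g) (i j : ℕ) (h : i + j + 1 ≤ g) :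
    (pth v i j).coe.IsAcyclic := by
  apply acyclic_of_card _ (pth_connected hg v i j)
  rw [pth_ncard v i j h]
  have := pth_edges v i j
  omega

lemma pth_not_adj_right (hg : 3 ≤ g) (v : ZMod g) (i j : ℕ) (h : i + j + 1 ≤ g) :
    ¬ (pth v i j).Adj (v + ((j : ℤ) : ZMod g)) (v + (((j : ℤ) + 1 : ℤ) : ZMod g)) := by
  rintro ⟨hne, x, h1, h2, h | h⟩
  · have := cast_inj (j : ℤ) x (by rw [abs_lt]; constructor <;> omega) (add_left_cancel h.1)
    omega
  · have e1 := add_left_cancel h.1
    have e2 := add_left_cancel h.2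
    have e3 : (((j : ℤ) + 1 : ℤ) : ZMod g) - ((j : ℤ) : ZMod g) = (x : ZMod g) - ((x + 1 : ℤ) : ZMod g) := by
      rw [e1, e2]
    have e4 : ((2 : ℤ) : ZMod g) = ((0 : ℤ) : ZMod g) := by
      push_cast at e3 ⊢
      have : (1 : ZMod g) = -1 := by linear_combination e3
      linear_combination this
    have := cast_inj 2 0 (by norm_num; omega) e4
    omega

lemma pth_not_adj_left (hg : 3 ≤ g) (v : ZMod g) (i j : ℕ) (h : i + j + 1 ≤ g) :
    ¬ (pth v i j).Adj (v + ((-(i : ℤ) - 1 : ℤ) : ZMod g)) (v + ((-(i : ℤ) : ℤ) : ZMod g)) := by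
  rintro ⟨hne, x, h1, h2, h | h⟩
  · have := cast_inj (-(i : ℤ)) (x + 1) (by rw [abs_lt]; constructor <;> omega)
      (add_left_cancel h.2)
    omega
  · have e1 := add_left_cancel h.1
    have e2 := add_left_cancel h.2
    have e3 : ((-(i : ℤ) : ℤ) : ZMod g) - ((-(i : ℤ) - 1 : ℤ) : ZMod g) =
        (x : ZMod g) - ((x + 1 : ℤ) : ZMod g) := by
      rw [e1, e2]
    have e4 : ((2 : ℤ) : ZMod g) = ((0 : ℤ) : ZMod g) := by
      push_cast at e3 ⊢
      have : (1 : ZMod g) = -1 := by linear_combination e3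
      linear_combination this
    have := cast_inj 2 0 (by norm_num; omega) e4
    omega

lemma pth_inj (hg : 3 ≤ g) (v : ZMod g) (i j i' j' : ℕ) (h : i + j + 1 ≤ g)
    (h' : i' + j' + 1 ≤ g) (he : pth v i j = pth v i' j') : i = i' ∧ j = j' := by
  constructor
  · by_contra hne
    rcases lt_or_gt_of_ne hne with hlt | hlt
    · have h1 := pth_adj hg v i' j' (-(i : ℤ) - 1) (by omega) (by omega)
      rw [← he] at h1
      have h2 := pth_not_adj_left hg v i j h
      rw [show (-(i : ℤ) - 1 + 1) = -(i : ℤ) by ring] at h1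
      exact h2 h1
    · have h1 := pth_adj hg v i j (-(i' : ℤ) - 1) (by omega) (by omega)
      rw [he] at h1
      have h2 := pth_not_adj_left hg v i' j' h'
      rw [show (-(i' : ℤ) - 1 + 1) = -(i' : ℤ) by ring] at h1
      exact h2 h1
  · by_contra hne
    rcases lt_or_gt_of_ne hne with hlt | hlt
    · have h1 := pth_adj hg v i' j' (j : ℤ) (by omega) (by omega)
      rw [← he] at h1
      exact pth_not_adj_right hg v i j h h1
    · have h1 := pth_adj hg v i j (j' : ℤ) (by omega) (by omega)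
      rw [he] at h1
      exact pth_not_adj_right hg v i' j' h' h1

/-- Classification of the connected subgraphs through `v`. -/
theorem classify [NeZero g] (v : ZMod g) (T : (cyc g).Subgraph) (hc : T.Connected)
    (hv : v ∈ T.verts) : T = ⊤ ∨ ∃ i j : ℕ, i + j + 1 ≤ g ∧ T = pth v i j := by
  by_cases hall : ∀ x : ZMod g, T.Adj x (x + 1)
  · left
    ext p q
    · exact ⟨fun _ => Set.mem_univ _, fun _ => (hall p).fst_mem⟩
    · constructor
      · intro h; exact h.adj_sub
      · rintro ⟨_, h | h⟩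
        · rw [h]; exact hall p
        · rw [h]; exact (hall q).symm
  · right
    push Not at hall
    obtain ⟨x0, hx0⟩ := hall
    let A : ℤ → Prop := fun x => T.Adj (v + (x : ZMod g)) (v + ((x + 1 : ℤ) : ZMod g))
    have hper : ∀ x y : ℤ, (x : ZMod g) = (y : ZMod g) → (A x ↔ A y) := by
      intro x y hxy
      show T.Adj _ _ ↔ T.Adj _ _
      push_cast
      rw [hxy]
    have hA0 : ∀ x : ℤ, (x : ZMod g) = x0 - v → ¬ A x := by
      intro x hx hA
      have : T.Adj (v + (x : ZMod g)) (v + ((x + 1 : ℤ) : ZMod g)) := hA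
      push_cast at this
      rw [hx] at this
      apply hx0
      have e1 : v + (x0 - v) = x0 := by ring
      have e2 : v + (x0 - v + 1) = x0 + 1 := by ring
      rwa [e1, e2] at this
    have hj : ∃ n : ℕ, ¬ A n := ⟨(x0 - v).val, hA0 _ (by simp)⟩
    have hi : ∃ n : ℕ, ¬ A (-(n : ℤ) - 1) := by
      refine ⟨(v - x0 - 1).val, hA0 _ ?_⟩
      push_cast
      rw [ZMod.natCast_zmod_val]
      ring
    classical
    let j := Nat.find hj
    let i := Nat.find hi
    have hj1 : ¬ A j := Nat.find_spec hj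
    have hj2 : ∀ n : ℕ, n < j → A n := fun n hn => by
      have := Nat.find_min hj hn
      push Not at this
      exact this
    have hi1 : ¬ A (-(i : ℤ) - 1) := Nat.find_spec hi
    have hi2 : ∀ n : ℕ, n < i → A (-(n : ℤ) - 1) := fun n hn => by
      have := Nat.find_min hi hn
      push Not at this
      exact this
    have hAx : ∀ x : ℤ, -(i : ℤ) ≤ x → x < j → A x := by
      intro x h1 h2
      rcases le_or_gt 0 x with h | h
      · obtain ⟨n, rfl⟩ := Int.eq_ofNat_of_zero_le h
        exact hj2 n (by exact_mod_cast h2)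
      · obtain ⟨n, hn⟩ := Int.eq_ofNat_of_zero_le (show 0 ≤ -x - 1 by omega)
        have : x = -(n : ℤ) - 1 := by omega
        rw [this]
        exact hi2 n (by omega)
    have hjg : j < g := by
      refine lt_of_le_of_lt (Nat.find_min' hj (m := (x0 - v).val) (hA0 _ (by simp))) ?_
      exact ZMod.val_lt _
    have hij : i + j + 1 ≤ g := by
      have : i ≤ g - 1 - j := by
        apply Nat.find_min' hi
        intro hA
        apply hj1
        refine (hper _ _ ?_).1 hA
        have : (-((g - 1 - j : ℕ) : ℤ) - 1 : ℤ) = (j : ℤ) - g := by omega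
        rw [this]
        push_cast
        rw [ZMod.natCast_self]
        ring
      omega
    refine ⟨i, j, hij, ?_⟩
    have hmem : ∀ x : ℤ, -(i : ℤ) ≤ x → x ≤ j → v + (x : ZMod g) ∈ T.verts := by
      intro x h1 h2
      rcases lt_trichotomy x 0 with h | h | h
      · exact (hAx x h1 (by omega)).fst_mem
      · subst h; simpa using hv
      · have := (hAx (x - 1) (by omega) (by omega)).snd_mem
        rwa [sub_add_cancel] at this
    have hverts : ∀ p ∈ T.verts, p ∈ (pth v i j).verts := by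
      intro p hp
      have hreach : T.coe.Reachable ⟨v, hv⟩ ⟨p, hp⟩ :=
        (Subgraph.connected_iff'.1 hc).preconnected _ _
      rw [reachable_iff_reflTransGen] at hreach
      have : ∀ z : T.verts, Relation.ReflTransGen T.coe.Adj ⟨v, hv⟩ z →
          (z : ZMod g) ∈ (pth v i j).verts := by
        intro z hz
        induction hz with
        | refl => exact pth_self v i j
        | @tail a c hxy hadj ih =>
          obtain ⟨x, hx1, hx2, hx⟩ := ih
          have hadj' : T.Adj a c := hadj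
          obtain ⟨_, h | h⟩ := hadj'.adj_sub
          · rcases lt_or_eq_of_le hx2 with hlt | heq
            · refine ⟨x + 1, by omega, by omega, ?_⟩
              rw [h, hx]; push_cast; ring
            · exfalso
              apply hj1
              show T.Adj _ _
              rw [← heq, ← hx]
              have : v + ((x + 1 : ℤ) : ZMod g) = (c : ZMod g) := by
                rw [h, hx]; push_cast; ring
              rw [this]; exact hadj'
          · rcases lt_or_eq_of_le hx1 with hlt | heq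
            · refine ⟨x - 1, by omega, by omega, ?_⟩
              have : (c : ZMod g) = (a : ZMod g) - 1 := by rw [h]; ring
              rw [this, hx]; push_cast; ring
            · exfalso
              apply hi1
              show T.Adj _ _
              have e1 : v + ((-(i : ℤ) - 1 + 1 : ℤ) : ZMod g) = (a : ZMod g) := by
                rw [hx, ← heq]; push_cast; ring
              have e2 : v + ((-(i : ℤ) - 1 : ℤ) : ZMod g) = (c : ZMod g) := by
                have : (c : ZMod g) = (a : ZMod g) - 1 := by rw [h]; ring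
                rw [this, hx, ← heq]; push_cast; ring
              rw [e1, e2]; exact hadj'.symm
      exact this ⟨p, hp⟩ hreach
    ext p q
    · constructor
      · exact hverts p
      · rintro ⟨x, h1, h2, rfl⟩
        exact hmem x h1 h2
    · constructor
      · intro hpq
        refine ⟨hpq.ne, ?_⟩
        obtain ⟨x, hx1, hx2, hx⟩ := hverts p hpq.fst_mem
        obtain ⟨y, hy1, hy2, hy⟩ := hverts q hpq.snd_mem
        obtain ⟨_, h | h⟩ := hpq.adj_sub
        · have hxj : x ≠ j := by
            intro heq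
            apply hj1
            show T.Adj _ _
            rw [← heq, ← hx]
            have : v + ((x + 1 : ℤ) : ZMod g) = q := by
              rw [h, hx]; push_cast; ring
            rw [this]; exact hpq
          refine ⟨x, hx1, lt_of_le_of_ne hx2 hxj, Or.inl ⟨hx, ?_⟩⟩
          rw [h, hx]; push_cast; ring
        · have hyj : y ≠ j := by
            intro heq
            apply hj1
            show T.Adj _ _
            rw [← heq, ← hy]
            have : v + ((y + 1 : ℤ) : ZMod g) = p := by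
              rw [h, hy]; push_cast; ring
            rw [this]; exact hpq.symm
          refine ⟨y, hy1, lt_of_le_of_ne hy2 hyj, Or.inr ⟨hy, ?_⟩⟩
          rw [h, hy]; push_cast; ring
      · rintro ⟨_, x, h1, h2, h | h⟩
        · rw [h.1, h.2]; exact hAx x h1 h2
        · rw [h.1, h.2]; exact (hAx x h1 h2).symm

lemma pth_spanning [NeZero g] (v : ZMod g) (i j : ℕ) (h : i + j + 1 = g) :
    (pth v i j).verts = Set.univ := by
  have h1 := pth_ncard v i j h.le
  rw [h] at h1
  apply Set.eq_of_subset_of_ncard_le (Set.subset_univ _)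
  rw [h1, Set.ncard_univ, Nat.card_zmod]

lemma top_connected [NeZero g] (hg : 3 ≤ g) : (⊤ : (cyc g).Subgraph).Connected := by
  have h := pth_connected hg (0 : ZMod g) 0 (g - 1)
  refine h.mono le_top ?_
  rw [pth_spanning _ _ _ (by omega)]
  rfl

lemma top_ncard [NeZero g] : (⊤ : (cyc g).Subgraph).verts.ncard = g := by
  rw [Subgraph.verts_top, Set.ncard_univ, Nat.card_zmod]

lemma pth_ne_top (hg : 3 ≤ g) (v : ZMod g) (i j : ℕ) (h : i + j + 1 ≤ g) : pth v i j ≠ ⊤ := by
  intro he
  apply pth_not_adj_right hg v i j h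
  rw [he]
  refine ⟨?_, Or.inl ?_⟩
  · have := one_ne hg (v + ((j : ℤ) : ZMod g))
    push_cast at this ⊢
    rwa [← add_assoc]
  · push_cast; ring

lemma top_not_acyclic [NeZero g] (hg : 3 ≤ g) : ¬ (⊤ : (cyc g).Subgraph).coe.IsAcyclic := by
  intro hac
  have h1 := card_of_acyclic _ (top_connected hg) hac
  rw [top_ncard] at h1
  have hlt : (pth (0 : ZMod g) 0 (g - 1)).edgeSet ⊂ (⊤ : (cyc g).Subgraph).edgeSet := by
    refine ⟨Subgraph.edgeSet_mono le_top, ?_⟩
    intro hsub
    apply pth_not_adj_right hg (0 : ZMod g) 0 (g - 1) (by omega)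
    refine (Subgraph.mem_edgeSet).1 (hsub (Subgraph.mem_edgeSet.2 ?_))
    show (cyc g).Adj _ _
    refine ⟨?_, Or.inl ?_⟩
    · have := one_ne hg ((0 : ZMod g) + (((g - 1 : ℕ) : ℤ) : ZMod g))
      push_cast at this ⊢
      rwa [← add_assoc]
    · push_cast; ring
  have h2 := Set.ncard_lt_ncard hlt (Set.toFinite _)
  have h3 := card_of_acyclic _ (pth_connected hg (0 : ZMod g) 0 (g - 1))
    (pth_acyclic hg 0 0 (g - 1) (by omega))
  rw [pth_ncard _ _ _ (by omega)] at h3
  omega

lemma pth_induced (v : ZMod g) (i j : ℕ) (h : i + j + 2 ≤ g) :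
    (pth v i j).IsInduced := by
  rintro _ ⟨x, hx1, hx2, rfl⟩ _ ⟨y, hy1, hy2, rfl⟩ ⟨hne, h1 | h1⟩
  · have : y = x + 1 := by
      apply cast_inj (g := g) _ _ (by rw [abs_lt]; constructor <;> omega)
      push_cast
      linear_combination h1
    subst this
    exact ⟨hne, x, hx1, by omega, Or.inl ⟨rfl, rfl⟩⟩
  · have : x = y + 1 := by
      apply cast_inj (g := g) _ _ (by rw [abs_lt]; constructor <;> omega)
      push_cast
      linear_combination h1
    subst this
    exact ⟨hne, y, hy1, by omega, Or.inr ⟨rfl, rfl⟩⟩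

lemma pth_not_induced (hg : 3 ≤ g) (v : ZMod g) (i j : ℕ) (h : i + j + 1 = g) :
    ¬ (pth v i j).IsInduced := by
  intro hind
  have e : v + (((j : ℤ) + 1 : ℤ) : ZMod g) = v + ((-(i : ℤ) : ℤ) : ZMod g) := by
    have : ((j : ℤ) + 1 : ℤ) = -(i : ℤ) + g := by omega
    rw [this]; push_cast
    rw [ZMod.natCast_self]; ring
  have h1 := pth_mem v i j (j : ℤ) (by omega) le_rfl
  have h2 := pth_mem v i j (-(i : ℤ)) le_rfl (by omega)
  rw [← e] at h2
  apply pth_not_adj_right hg v i j h.le
  apply hind h1 h2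
  refine ⟨?_, Or.inl ?_⟩
  · have := one_ne hg (v + ((j : ℤ) : ZMod g))
    push_cast at this ⊢
    rwa [← add_assoc]
  · push_cast; ring

lemma mem_pth (v : ZMod g) (i j a : ℕ) (h : i + j + 1 ≤ g) (ha : 0 < a) (hag : a < g) :
    v + (a : ZMod g) ∈ (pth v i j).verts ↔ a ≤ j ∨ g ≤ a + i := by
  constructor
  · rintro ⟨x, h1, h2, hx⟩
    have hx' := add_left_cancel hx
    rcases lt_or_ge x 0 with hneg | hpos
    · have := cast_inj (g := g) (a : ℤ) (x + g) (by rw [abs_lt]; constructor <;> omega) (by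
        push_cast
        rw [ZMod.natCast_self, add_zero]
        exact hx')
      omega
    · have := cast_inj (g := g) (a : ℤ) x (by rw [abs_lt]; constructor <;> omega) (by
        push_cast
        exact hx')
      omega
  · rintro (h1 | h1)
    · exact ⟨a, by omega, by omega, by push_cast; rfl⟩
    · refine ⟨(a : ℤ) - g, by omega, by omega, ?_⟩
      push_cast
      rw [ZMod.natCast_self, sub_zero]

end

end Q105.SubT
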