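import Pool.Agent.Q105.SubT.Cycle

set_option autoImplicit false

/-!
# Counting connected subgraphs of a cycle through given vertices
-/

open SimpleGraph Finset

namespace Q105.SubT

/-- pairs with sum less than `n` -/
def Idx (n : ℕ) : Finset (ℕ × ℕ) := (range n ×ˢ range n).filter (fun p => p.1 + p.2 < n)

lemma mem_Idx {n : ℕ} {p : ℕ × ℕ} : p ∈ Idx n ↔ p.1 + p.2 < n := by
  unfold Idx
  rw [mem_filter, mem_product, mem_range, mem_range]
  omega

lemma Idx_eq (n : ℕ) : Idx n = (range n).biUnion (fun m => antidiagonal m) := by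
  ext p
  rw [mem_Idx, mem_biUnion]
  constructor
  · intro h
    exact ⟨p.1 + p.2, mem_range.2 h, HasAntidiagonal.mem_antidiagonal.2 rfl⟩
  · rintro ⟨m, hm, hp⟩
    rw [HasAntidiagonal.mem_antidiagonal] at hp
    rw [mem_range] at hm
    omega

lemma sum_Idx (n : ℕ) (F : ℕ → ℚ) :
    ∑ p ∈ Idx n, F (p.1 + p.2) = ∑ m ∈ range n, ((m : ℚ) + 1) * F m := by
  rw [Idx_eq, sum_biUnion]
  · refine sum_congr rfl fun m _ => ?_
    have : ∑ p ∈ antidiagonal m, F (p.1 + p.2) = ∑ p ∈ antidiagonal m, F m :=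
      sum_congr rfl fun p hp => by rw [HasAntidiagonal.mem_antidiagonal.1 hp]
    rw [this, sum_const, Nat.card_antidiagonal, nsmul_eq_mul]
    push_cast; ring
  · intro a _ b _ hab
    show Disjoint _ _
    rw [Finset.disjoint_left]
    intro p hp hp'
    exact hab ((HasAntidiagonal.mem_antidiagonal.1 hp).symm.trans (HasAntidiagonal.mem_antidiagonal.1 hp'))

lemma sum_Idx_one (n : ℕ) : ∑ _p ∈ Idx n, (1 : ℚ) = n * (n + 1) / 2 := by
  have := sum_Idx n (fun _ => 1)
  rw [this]
  clear this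
  induction n with
  | zero => simp
  | succ n ih => rw [sum_range_succ, ih]; push_cast; ring

lemma sum_Idx_lin (n : ℕ) (c : ℚ) :
    ∑ p ∈ Idx n, (((p.1 + p.2 : ℕ) : ℚ) + c) = (n - 1) * n * (n + 1) / 3 + c * (n * (n + 1) / 2) := by
  have := sum_Idx n (fun m => (m : ℚ) + c)
  rw [this]
  clear this
  induction n with
  | zero => simp
  | succ n ih => rw [sum_range_succ, ih]; push_cast; ring

lemma card_Idx_le (n : ℕ) : (Idx n).card ≤ n * n := by
  unfold Idx
  refine (card_filter_le _ _).trans ?_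
  simp

section

variable {g : ℕ} [NeZero g]

open Classical in
/-- trees of the cycle through `v` -/
lemma S_true (hg : 3 ≤ g) (f : ℕ → ℚ) (v : ZMod g) (X : Set (ZMod g)) (hv : v ∈ X) :
    S f true (cyc g) X = ∑ p ∈ Idx g with X ⊆ (pth v p.1 p.2).verts, f (p.1 + p.2 + 1) := by
  unfold S
  symm
  refine sum_bij (fun p _ => pth v p.1 p.2) ?_ ?_ ?_ ?_
  · intro p hp
    rw [mem_filter, mem_Idx] at hp
    rw [mem_famF]
    exact ⟨pth_connected hg v _ _, pth_acyclic hg v _ _ (by omega), hp.2⟩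
  · intro p hp q hq hpq
    rw [mem_filter, mem_Idx] at hp hq
    have := pth_inj hg v p.1 p.2 q.1 q.2 (by omega) (by omega) hpq
    exact Prod.ext this.1 this.2
  · intro T hT
    rw [mem_famF] at hT
    obtain ⟨hc, hp, hX⟩ := hT
    rcases classify v T hc (hX hv) with h | ⟨i, j, hij, h⟩
    · subst h
      exact absurd hp (top_not_acyclic hg)
    · refine ⟨(i, j), ?_, h.symm⟩
      rw [mem_filter, mem_Idx]
      exact ⟨by show i + j < g; omega, by rw [← h]; exact hX⟩
  · intro p hp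
    rw [mem_filter, mem_Idx] at hp
    rw [pth_ncard v p.1 p.2 (by omega)]

open Classical in
/-- induced connected subgraphs of the cycle through `v` -/
lemma S_false (hg : 3 ≤ g) (f : ℕ → ℚ) (v : ZMod g) (X : Set (ZMod g)) (hv : v ∈ X) :
    S f false (cyc g) X =
      ∑ p ∈ Idx (g - 1) with X ⊆ (pth v p.1 p.2).verts, f (p.1 + p.2 + 1) + f g := by
  unfold S
  have htop : (⊤ : (cyc g).Subgraph) ∈ famF false (cyc g) X := by
    rw [mem_famF]
    exact ⟨top_connected hg, Subgraph.IsInduced.top, Set.subset_univ _⟩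
  rw [← Finset.sum_erase_add _ _ htop, top_ncard]
  congr 1
  symm
  refine sum_bij (fun p _ => pth v p.1 p.2) ?_ ?_ ?_ ?_
  · intro p hp
    rw [mem_filter, mem_Idx] at hp
    rw [mem_erase, mem_famF]
    exact ⟨pth_ne_top hg v _ _ (by omega), pth_connected hg v _ _,
      pth_induced v _ _ (by omega), hp.2⟩
  · intro p hp q hq hpq
    rw [mem_filter, mem_Idx] at hp hq
    have := pth_inj hg v p.1 p.2 q.1 q.2 (by omega) (by omega) hpq
    exact Prod.ext this.1 this.2
  · intro T hT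
    rw [mem_erase, mem_famF] at hT
    obtain ⟨hne, hc, hp, hX⟩ := hT
    rcases classify v T hc (hX hv) with h | ⟨i, j, hij, h⟩
    · exact absurd h hne
    · refine ⟨(i, j), ?_, h.symm⟩
      rw [mem_filter, mem_Idx]
      refine ⟨?_, by rw [← h]; exact hX⟩
      show i + j < g - 1
      by_contra hcon
      have : i + j + 1 = g := by omega
      subst h
      exact pth_not_induced hg v i j this hp
  · intro p hp
    rw [mem_filter, mem_Idx] at hp
    rw [pth_ncard v p.1 p.2 (by omega)]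

lemma cnt_nonneg {V : Type*} [Finite V] (b : Bool) (G : SimpleGraph V) (X : Set V) :
    0 ≤ cnt b G X := by
  unfold cnt S
  exact sum_nonneg fun _ _ => zero_le_one

lemma tot_nonneg {V : Type*} [Finite V] (b : Bool) (G : SimpleGraph V) (X : Set V) :
    0 ≤ tot b G X := by
  unfold tot S
  exact sum_nonneg fun _ _ => Nat.cast_nonneg _

lemma cnt_le_empty {V : Type*} [Finite V] (b : Bool) (G : SimpleGraph V) (X : Set V) :
    cnt b G X ≤ cnt b G ∅ := by
  unfold cnt S
  refine sum_le_sum_of_subset_of_nonneg ?_ fun _ _ _ => zero_le_one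
  intro T hT
  rw [mem_famF] at hT ⊢
  exact ⟨hT.1, hT.2.1, Set.empty_subset _⟩

lemma tot_le {V : Type*} [Finite V] (b : Bool) (G : SimpleGraph V) (X : Set V) :
    tot b G X ≤ Nat.card V * cnt b G X := by
  unfold tot cnt S
  rw [mul_sum]
  refine sum_le_sum fun T _ => ?_
  have := Set.ncard_le_ncard (Set.subset_univ T.verts) (Set.toFinite _)
  rw [Set.ncard_univ] at this
  show (T.verts.ncard : ℚ) ≤ (Nat.card V : ℚ) * 1
  rw [mul_one]
  exact_mod_cast this

lemma cnt_single_le (hg : 3 ≤ g) (b : Bool) (v : ZMod g) : cnt b (cyc g) {v} ≤ (g : ℚ) * g := by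
  classical
  unfold cnt
  cases b
  · rw [S_false hg _ v {v} rfl, sum_const, nsmul_eq_mul, mul_one]
    have h1 : #({p ∈ Idx (g - 1) | ({v} : Set (ZMod g)) ⊆ (pth v p.1 p.2).verts}) + 1 ≤ g * g := by
      have h2 := card_Idx_le (g - 1)
      have h3 := card_filter_le (Idx (g - 1)) (fun p => ({v} : Set (ZMod g)) ⊆ (pth v p.1 p.2).verts)
      have h4 : (g - 1) * (g - 1) + 1 ≤ g * g := by
        obtain ⟨m, hm⟩ : ∃ m, g = m + 1 := ⟨g - 1, by omega⟩
        have hm' : g - 1 = m := by omega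
        rw [hm', hm]
        nlinarith
      omega
    exact_mod_cast h1
  · rw [S_true hg _ v {v} rfl, sum_const, nsmul_eq_mul, mul_one]
    have h1 := (card_filter_le (Idx g) (fun p => ({v} : Set (ZMod g)) ⊆ (pth v p.1 p.2).verts)).trans
      (card_Idx_le g)
    exact_mod_cast h1

lemma cnt_cyc_le (hg : 3 ≤ g) (b : Bool) (X : Set (ZMod g)) : cnt b (cyc g) X ≤ (g : ℚ) ^ 3 := by
  classical
  refine (cnt_le_empty b _ X).trans ?_
  have h1 : cnt b (cyc g) ∅ ≤ ∑ v : ZMod g, cnt b (cyc g) {v} := by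
    unfold cnt S
    simp_rw [sum_const, nsmul_eq_mul, mul_one]
    have : famF b (cyc g) ∅ ⊆ (Finset.univ : Finset (ZMod g)).biUnion
        (fun v => famF b (cyc g) {v}) := by
      intro T hT
      rw [mem_famF] at hT
      obtain ⟨v, hv⟩ := hT.1.nonempty
      rw [mem_biUnion]
      exact ⟨v, mem_univ _, mem_famF.2 ⟨hT.1, hT.2.1, Set.singleton_subset_iff.2 hv⟩⟩
    have h2 := (card_le_card this).trans card_biUnion_le
    exact_mod_cast h2
  refine h1.trans ((sum_le_sum fun v _ => cnt_single_le hg b v).trans ?_)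
  rw [sum_const, card_univ, ZMod.card, nsmul_eq_mul]
  apply le_of_eq; ring

lemma tot_cyc_le (hg : 3 ≤ g) (b : Bool) (X : Set (ZMod g)) : tot b (cyc g) X ≤ (g : ℚ) ^ 4 := by
  have h1 := tot_le b (cyc g) X
  rw [Nat.card_zmod] at h1
  have h2 := cnt_cyc_le hg b X
  have h3 : (0 : ℚ) ≤ g := Nat.cast_nonneg _
  calc tot b (cyc g) X ≤ g * cnt b (cyc g) X := h1
    _ ≤ g * (g : ℚ) ^ 3 := mul_le_mul_of_nonneg_left h2 h3
    _ = (g : ℚ) ^ 4 := by ring

end

end Q105.SubT
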