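import Pool.Agent.Q105.SubT.CycleCount

set_option autoImplicit false

/-!
# Connected subgraphs of a cycle through two or three given vertices
-/

open SimpleGraph Finset

namespace Q105.SubT

lemma sum_shift_right (n a : ℕ) (F : ℕ → ℚ) :
    ∑ p ∈ Idx n with a ≤ p.2, F (p.1 + p.2) = ∑ p ∈ Idx (n - a), F (p.1 + p.2 + a) := by
  symm
  refine sum_bij (fun p _ => (p.1, p.2 + a)) ?_ ?_ ?_ ?_
  · intro p hp
    rw [mem_Idx] at hp
    rw [mem_filter, mem_Idx]
    constructor
    · show p.1 + (p.2 + a) < n; omega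
    · show a ≤ p.2 + a; omega
  · intro p _ q _ h
    have h1 := congrArg Prod.fst h
    have h2 := congrArg Prod.snd h
    simp only at h1 h2
    exact Prod.ext h1 (by omega)
  · intro p hp
    rw [mem_filter, mem_Idx] at hp
    refine ⟨(p.1, p.2 - a), ?_, ?_⟩
    · rw [mem_Idx]; show p.1 + (p.2 - a) < n - a; omega
    · exact Prod.ext rfl (by show p.2 - a + a = p.2; omega)
  · intro p _
    show F (p.1 + p.2 + a) = F (p.1 + (p.2 + a))
    rw [add_assoc]

lemma sum_shift_left (n a : ℕ) (F : ℕ → ℚ) :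
    ∑ p ∈ Idx n with a ≤ p.1, F (p.1 + p.2) = ∑ p ∈ Idx (n - a), F (p.1 + p.2 + a) := by
  symm
  refine sum_bij (fun p _ => (p.1 + a, p.2)) ?_ ?_ ?_ ?_
  · intro p hp
    rw [mem_Idx] at hp
    rw [mem_filter, mem_Idx]
    constructor
    · show (p.1 + a) + p.2 < n; omega
    · show a ≤ p.1 + a; omega
  · intro p _ q _ h
    have h1 := congrArg Prod.fst h
    have h2 := congrArg Prod.snd h
    simp only at h1 h2
    exact Prod.ext (by omega) h2
  · intro p hp
    rw [mem_filter, mem_Idx] at hp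
    refine ⟨(p.1 - a, p.2), ?_, ?_⟩
    · rw [mem_Idx]; show (p.1 - a) + p.2 < n - a; omega
    · exact Prod.ext (by show p.1 - a + a = p.1; omega) rfl
  · intro p _
    show F (p.1 + p.2 + a) = F (p.1 + a + p.2)
    congr 1; omega

lemma sum_two (n a L : ℕ) (hn : n ≤ a + L) (F : ℕ → ℚ) :
    ∑ p ∈ Idx n with (a ≤ p.2 ∨ L ≤ p.1), F (p.1 + p.2) =
      ∑ p ∈ Idx (n - a), F (p.1 + p.2 + a) + ∑ p ∈ Idx (n - L), F (p.1 + p.2 + L) := by
  rw [← sum_shift_right, ← sum_shift_left, filter_or, sum_union]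
  rw [Finset.disjoint_left]
  intro p hp hq
  rw [mem_filter, mem_Idx] at hp hq
  omega

lemma sum_rect (n a L t : ℕ) (ht : t < a) (hn : n ≤ a + L) (hn' : a + L ≤ n + 1)
    (_ht0 : 0 < t) (F : ℕ → ℚ) :
    ∑ p ∈ (Idx n).filter (fun p => a ≤ p.2 ∨ L ≤ p.1) with ¬ (t ≤ p.2 ∨ a + L ≤ t + p.1),
      F (p.1 + p.2) = ∑ i ∈ range (a - t), ∑ j ∈ range t, F (i + j + L) := by
  rw [← sum_product']
  symm
  refine sum_bij (fun p _ => (p.1 + L, p.2)) ?_ ?_ ?_ ?_
  · intro p hp
    rw [mem_product, mem_range, mem_range] at hp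
    rw [mem_filter, mem_filter, mem_Idx]
    refine ⟨⟨?_, Or.inr ?_⟩, ?_⟩
    · show (p.1 + L) + p.2 < n; omega
    · show L ≤ p.1 + L; omega
    · show ¬ (t ≤ p.2 ∨ a + L ≤ t + (p.1 + L)); omega
  · intro p _ q _ h
    have h1 := congrArg Prod.fst h
    have h2 := congrArg Prod.snd h
    simp only at h1 h2
    exact Prod.ext (by omega) h2
  · intro p hp
    rw [mem_filter, mem_filter, mem_Idx] at hp
    refine ⟨(p.1 - L, p.2), ?_, ?_⟩
    · rw [mem_product, mem_range, mem_range]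
      constructor
      · show p.1 - L < a - t; omega
      · show p.2 < t; omega
    · exact Prod.ext (by show p.1 - L + L = p.1; omega) rfl
  · intro p _
    show F (p.1 + p.2 + L) = F (p.1 + L + p.2)
    congr 1; omega

/-- trees through `0` and `a` (`c = 1` counts, `d = 1` adds orders) -/
noncomputable def A1 (b : Bool) (a L : ℕ) (F : ℕ → ℚ) : ℚ :=
  match b with
  | true => ∑ p ∈ Idx L, F (p.1 + p.2 + a) + ∑ p ∈ Idx a, F (p.1 + p.2 + L)
  | false => ∑ p ∈ Idx (L - 1), F (p.1 + p.2 + a) + ∑ p ∈ Idx (a - 1), F (p.1 + p.2 + L) +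
      F (a + L - 1)

theorem S_two (a L : ℕ) [NeZero (a + L)] (hg : 3 ≤ a + L) (ha : 0 < a) (hL : 0 < L) (b : Bool)
    (f : ℕ → ℚ) : S f b (cyc (a + L)) {0, (a : ZMod (a + L))} = A1 b a L (fun n => f (n + 1)) := by
  classical
  have hcond : ∀ p : ℕ × ℕ, p.1 + p.2 < a + L →
      (({0, (a : ZMod (a + L))} : Set (ZMod (a + L))) ⊆ (pth 0 p.1 p.2).verts ↔
        (a ≤ p.2 ∨ L ≤ p.1)) := by
    intro p hp
    rw [Set.insert_subset_iff, Set.singleton_subset_iff]
    have h1 := mem_pth (0 : ZMod (a + L)) p.1 p.2 a (by omega) ha (by omega)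
    rw [zero_add] at h1
    rw [h1]
    have h2 := pth_self (0 : ZMod (a + L)) p.1 p.2
    constructor
    · rintro ⟨_, h⟩; omega
    · intro h; exact ⟨h2, by omega⟩
  cases b
  · rw [S_false hg f 0 _ (Set.mem_insert _ _)]
    have : (Idx (a + L - 1)).filter (fun p =>
        ({0, (a : ZMod (a + L))} : Set (ZMod (a + L))) ⊆ (pth 0 p.1 p.2).verts) =
        (Idx (a + L - 1)).filter (fun p => a ≤ p.2 ∨ L ≤ p.1) := by
      refine filter_congr fun p hp => ?_
      rw [mem_Idx] at hp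
      exact hcond p (by omega)
    rw [this]
    have h2 := sum_two (a + L - 1) a L (by omega) (fun n => f (n + 1))
    rw [h2]
    unfold A1
    have e1 : a + L - 1 - a = L - 1 := by omega
    have e2 : a + L - 1 - L = a - 1 := by omega
    have e3 : a + L - 1 + 1 = a + L := by omega
    simp only [e1, e2, e3]
  · rw [S_true hg f 0 _ (Set.mem_insert _ _)]
    have : (Idx (a + L)).filter (fun p =>
        ({0, (a : ZMod (a + L))} : Set (ZMod (a + L))) ⊆ (pth 0 p.1 p.2).verts) =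
        (Idx (a + L)).filter (fun p => a ≤ p.2 ∨ L ≤ p.1) := by
      refine filter_congr fun p hp => ?_
      rw [mem_Idx] at hp
      exact hcond p (by omega)
    rw [this]
    have h2 := sum_two (a + L) a L le_rfl (fun n => f (n + 1))
    rw [h2]
    unfold A1
    have e1 : a + L - a = L := by omega
    have e2 : a + L - L = a := by omega
    simp only [e1, e2]

theorem S_three (a L t : ℕ) [NeZero (a + L)] (hg : 3 ≤ a + L) (hL : 0 < L)
    (ht0 : 0 < t) (ht : t < a) (b : Bool) (f : ℕ → ℚ) :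
    S f b (cyc (a + L)) (insert (t : ZMod (a + L)) {0, (a : ZMod (a + L))}) =
      A1 b a L (fun n => f (n + 1)) - ∑ i ∈ range (a - t), ∑ j ∈ range t, f (i + j + L + 1) := by
  classical
  have ha : 0 < a := by omega
  have hcond : ∀ p : ℕ × ℕ, p.1 + p.2 < a + L →
      ((insert (t : ZMod (a + L)) {0, (a : ZMod (a + L))} : Set (ZMod (a + L))) ⊆
        (pth 0 p.1 p.2).verts ↔ (a ≤ p.2 ∨ L ≤ p.1) ∧ (t ≤ p.2 ∨ a + L ≤ t + p.1)) := by
    intro p hp
    rw [Set.insert_subset_iff, Set.insert_subset_iff, Set.singleton_subset_iff]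
    have h1 := mem_pth (0 : ZMod (a + L)) p.1 p.2 a (by omega) ha (by omega)
    have h3 := mem_pth (0 : ZMod (a + L)) p.1 p.2 t (by omega) ht0 (by omega)
    rw [zero_add] at h1 h3
    rw [h1, h3]
    have h2 := pth_self (0 : ZMod (a + L)) p.1 p.2
    constructor
    · rintro ⟨h, _, h'⟩; omega
    · intro h; exact ⟨h.2, h2, by omega⟩
  have key : ∀ n : ℕ, n ≤ a + L → a + L ≤ n + 1 →
      ∑ p ∈ Idx n with (insert (t : ZMod (a + L)) {0, (a : ZMod (a + L))} :
        Set (ZMod (a + L))) ⊆ (pth 0 p.1 p.2).verts, f (p.1 + p.2 + 1) =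
      (∑ p ∈ Idx (n - a), f (p.1 + p.2 + a + 1) + ∑ p ∈ Idx (n - L), f (p.1 + p.2 + L + 1)) -
        ∑ i ∈ range (a - t), ∑ j ∈ range t, f (i + j + L + 1) := by
    intro n hn hn'
    have e : (Idx n).filter (fun p =>
        (insert (t : ZMod (a + L)) {0, (a : ZMod (a + L))} : Set (ZMod (a + L))) ⊆
          (pth 0 p.1 p.2).verts) =
        ((Idx n).filter (fun p => a ≤ p.2 ∨ L ≤ p.1)).filter
          (fun p => t ≤ p.2 ∨ a + L ≤ t + p.1) := by
      rw [filter_filter]
      refine filter_congr fun p hp => ?_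
      rw [mem_Idx] at hp
      exact hcond p (by omega)
    rw [e, ← sum_two n a L hn (fun n => f (n + 1)), eq_sub_iff_add_eq,
      ← sum_rect n a L t ht hn hn' ht0 (fun n => f (n + 1))]
    exact sum_filter_add_sum_filter_not _ _ _
  cases b
  · rw [S_false hg f 0 _ (Set.mem_insert_of_mem _ (Set.mem_insert _ _)),
      key (a + L - 1) (by omega) (by omega)]
    unfold A1
    have e1 : a + L - 1 - a = L - 1 := by omega
    have e2 : a + L - 1 - L = a - 1 := by omega
    have e3 : a + L - 1 + 1 = a + L := by omega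
    simp only [e1, e2, e3]
    ring
  · rw [S_true hg f 0 _ (Set.mem_insert_of_mem _ (Set.mem_insert _ _)),
      key (a + L) le_rfl (by omega)]
    unfold A1
    have e1 : a + L - a = L := by omega
    have e2 : a + L - L = a := by omega
    simp only [e1, e2]

lemma rect_one (m n : ℕ) : ∑ _i ∈ range m, ∑ _j ∈ range n, (1 : ℚ) = m * n := by
  simp

lemma sum_range_cast (n : ℕ) : ∑ j ∈ range n, (j : ℚ) = n * (n - 1) / 2 := by
  induction n with
  | zero => simp
  | succ n ih => rw [sum_range_succ, ih]; push_cast; ring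

lemma rect_lin (m n : ℕ) (c : ℚ) : ∑ i ∈ range m, ∑ j ∈ range n, (((i + j : ℕ) : ℚ) + c) =
    n * (m * (m - 1) / 2) + m * (n * (n - 1) / 2) + m * n * c := by
  push_cast
  simp_rw [sum_add_distrib, sum_const, card_range, nsmul_eq_mul, sum_range_cast]
  rw [← mul_sum, sum_range_cast]
  ring

end Q105.SubT
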