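import Pool.Agent.Q105.SubT.Values

set_option autoImplicit false

/-!
# Values for the cycle with two bunches of leaves, and the two comparisons
-/

open SimpleGraph Finset

namespace Q105.SubT

section

variable (a L t k : ℕ) [NeZero (a + L)]

/-- the middle vertex of the short arc, inside `HB` -/
def wv (a L t k : ℕ) : (ZMod (a + L) ⊕ {x : Option (Fin k) // x ≠ none}) ⊕
    {x : Option (Fin k) // x ≠ none} := Sum.inl (Sum.inl (t : ZMod (a + L)))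

/-- error bound for counts -/
def EE (a L k : ℕ) : ℚ := ((a + L : ℕ) : ℚ) ^ 3 + 2 * (2 ^ k - 1) * ((a + L : ℕ) : ℚ) ^ 3 + 2 * k

/-- error bound for total orders -/
def FF (a L k : ℕ) : ℚ := ((a + L : ℕ) : ℚ) ^ 4 + 2 * (2 ^ k - 1) * ((a + L : ℕ) : ℚ) ^ 4 +
  2 * (k * 2 ^ k / 2) * ((a + L : ℕ) : ℚ) ^ 3 + 2 * k

lemma HB_empty_cnt (hg : 3 ≤ a + L) (b : Bool) : ∃ e : ℚ, 0 ≤ e ∧ e ≤ EE a L k ∧
    cnt b (HB (a + L) a k) ∅ = e + (2 ^ k - 1) ^ 2 * cnt b (cyc (a + L)) {0, (a : ZMod (a + L))} := by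
  obtain ⟨e, h1, h2, h3⟩ := cnt_bound (g := a + L) a k hg b ∅
  rw [Set.image_empty, Set.image_empty, insert_empty_eq] at h3
  exact ⟨e, h1, h2, h3⟩

lemma HB_empty_tot (hg : 3 ≤ a + L) (b : Bool) : ∃ f : ℚ, 0 ≤ f ∧ f ≤ FF a L k ∧
    tot b (HB (a + L) a k) ∅ = f + (2 ^ k - 1) ^ 2 * tot b (cyc (a + L)) {0, (a : ZMod (a + L))} +
      2 * (2 ^ k - 1) * (k * 2 ^ k / 2) * cnt b (cyc (a + L)) {0, (a : ZMod (a + L))} := by
  obtain ⟨e, h1, h2, h3⟩ := tot_bound (g := a + L) a k hg b ∅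
  rw [Set.image_empty, Set.image_empty, insert_empty_eq] at h3
  exact ⟨e, h1, h2, h3⟩

omit [NeZero (a + L)] in
lemma img_eq : emb1 (HA (a + L) k) (star k) (Sum.inl (a : ZMod (a + L))) none ''
      (emb1 (cyc (a + L)) (star k) 0 none '' {(t : ZMod (a + L))}) = {wv a L t k} := by
  rw [Set.image_singleton, Set.image_singleton]
  rfl

lemma HB_w_cnt (hg : 3 ≤ a + L) (hL : 0 < L) (ht0 : 0 < t) (ht : t < a) (b : Bool) :
    ∃ e : ℚ, 0 ≤ e ∧ e ≤ EE a L k ∧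
    cnt b (HB (a + L) a k) {wv a L t k} =
      e + (2 ^ k - 1) ^ 2 * (cnt b (cyc (a + L)) {0, (a : ZMod (a + L))} - rc a t) := by
  obtain ⟨e, h1, h2, h3⟩ := cnt_bound (g := a + L) a k hg b {(t : ZMod (a + L))}
  rw [img_eq, cnt_three a L t hg hL ht0 ht b] at h3
  exact ⟨e, h1, h2, h3⟩

lemma HB_w_tot (hg : 3 ≤ a + L) (hL : 0 < L) (ht0 : 0 < t) (ht : t < a) (b : Bool) :
    ∃ f : ℚ, 0 ≤ f ∧ f ≤ FF a L k ∧
    tot b (HB (a + L) a k) {wv a L t k} =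
      f + (2 ^ k - 1) ^ 2 * (tot b (cyc (a + L)) {0, (a : ZMod (a + L))} - rt a L t) +
      2 * (2 ^ k - 1) * (k * 2 ^ k / 2) *
        (cnt b (cyc (a + L)) {0, (a : ZMod (a + L))} - rc a t) := by
  obtain ⟨e, h1, h2, h3⟩ := tot_bound (g := a + L) a k hg b {(t : ZMod (a + L))}
  rw [img_eq, cnt_three a L t hg hL ht0 ht b, tot_three a L t hg hL ht0 ht b] at h3
  exact ⟨e, h1, h2, h3⟩

/-- `HB` with a pendant vertex at the middle of the short arc. -/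
abbrev GP (a L t k : ℕ) : SimpleGraph (((ZMod (a + L) ⊕ {x : Option (Fin k) // x ≠ none}) ⊕
    {x : Option (Fin k) // x ≠ none}) ⊕ {x : Option (Fin 1) // x ≠ none}) :=
  glueG (HB (a + L) a k) (star 1) (wv a L t k) none

theorem pendant_lt (hg : 3 ≤ a + L) (hL : 0 < L) (ht0 : 0 < t) (ht : t < a) (hk : 0 < k)
    (h1 : 0 < al a L) (h2 : 0 ≤ ta a L) (h3 : 0 ≤ al a L - rc a t)
    (h4 : 0 ≤ ta a L - rt a L t)
    (hbig : (2 * FF a L k + EE a L k + 1) *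
        ((2 * EE a L k + 1) + (2 ^ k - 1) ^ 2 * al a L) +
      ((2 ^ k - 1) ^ 2 * (ta a L + (ta a L - rt a L t) + (al a L - rc a t)) +
        2 * (2 ^ k - 1) * (k * 2 ^ k / 2) * (al a L + (al a L - rc a t))) * (2 * EE a L k + 1) <
      (2 ^ k - 1) ^ 4 * (ta a L * (al a L + (al a L - rc a t)) -
        (ta a L + (ta a L - rt a L t) + (al a L - rc a t)) * al a L)) :
    tot true (GP a L t k) ∅ / cnt true (GP a L t k) ∅ <
      tot true (HB (a + L) a k) ∅ / cnt true (HB (a + L) a k) ∅ := by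
  classical
  obtain ⟨e1, he1, he1', hN⟩ := HB_empty_cnt a L k hg true
  obtain ⟨f1, hf1, hf1', hM⟩ := HB_empty_tot a L k hg true
  obtain ⟨e2, he2, he2', hn⟩ := HB_w_cnt a L t k hg hL ht0 ht true
  obtain ⟨f2, hf2, hf2', hm⟩ := HB_w_tot a L t k hg hL ht0 ht true
  rw [cnt_two_true a L t hg hL ht0 ht] at hN hM hn hm
  rw [tot_two_true a L t hg hL ht0 ht] at hM hm
  have c1 := cnt_addStar (HB (a + L) a k) (wv a L t k) 1 true ∅
  have t1 := tot_addStar (HB (a + L) a k) (wv a L t k) 1 true ∅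
  rw [Set.image_empty, insert_empty_eq, if_pos rfl] at c1 t1
  rw [hN, hn] at c1
  rw [hM, hm, hn] at t1
  have hu : (0 : ℚ) < 2 ^ k - 1 := by
    have : (1 : ℚ) < 2 ^ k := one_lt_pow₀ (by norm_num) hk.ne'
    linarith
  have hcmp := compare (2 ^ k - 1) (k * 2 ^ k / 2) (al a L + (al a L - rc a t))
    (ta a L + (ta a L - rt a L t) + (al a L - rc a t)) (al a L) (ta a L)
    (e1 + e2 + 1) (f1 + f2 + e2 + 1) e1 f1 (2 * EE a L k + 1) (2 * FF a L k + EE a L k + 1)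
    hu (by positivity) (by linarith) h1 (by linarith) h2 (by linarith) (by linarith)
    he1 hf1 (by linarith) (by linarith) hbig
  rw [c1, t1, hN, hM]
  refine lt_of_eq_of_lt ?_ hcmp
  congr 1
  · push_cast; ring
  · push_cast; ring

/-- `HB` with a triangle at the middle of the short arc. -/
abbrev GT (a L t k : ℕ) : SimpleGraph (((ZMod (a + L) ⊕ {x : Option (Fin k) // x ≠ none}) ⊕
    {x : Option (Fin k) // x ≠ none}) ⊕ {x : ZMod 3 // x ≠ 0}) :=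
  glueG (HB (a + L) a k) (cyc 3) (wv a L t k) 0

open Classical in
lemma tri_filter (n : ℕ) : (Idx n).filter (fun p =>
    ({0} : Set (ZMod 3)) ⊆ (pth (0 : ZMod 3) p.1 p.2).verts) = Idx n := by
  rw [Finset.filter_eq_self]
  intro p _
  rw [Set.singleton_subset_iff]
  exact pth_self _ _ _

lemma tri_cnt_true : cnt true (cyc 3) {(0 : ZMod 3)} = 6 := by
  classical
  unfold cnt
  rw [S_true le_rfl _ (0 : ZMod 3) {0} rfl, tri_filter, sum_Idx_one]
  norm_num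

lemma tri_tot_true : tot true (cyc 3) {(0 : ZMod 3)} = 14 := by
  classical
  unfold tot
  rw [S_true le_rfl _ (0 : ZMod 3) {0} rfl, tri_filter]
  have := sum_lin' 3 0
  simp only [add_zero] at this
  rw [this]; norm_num

lemma tri_cnt_false : cnt false (cyc 3) {(0 : ZMod 3)} = 4 := by
  classical
  unfold cnt
  rw [S_false le_rfl _ (0 : ZMod 3) {0} rfl, tri_filter, sum_Idx_one]
  norm_num

lemma tri_tot_false : tot false (cyc 3) {(0 : ZMod 3)} = 8 := by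
  classical
  unfold tot
  rw [S_false le_rfl _ (0 : ZMod 3) {0} rfl, tri_filter]
  have := sum_lin' 2 0
  simp only [add_zero] at this
  show ∑ p ∈ Idx 2, ((p.1 + p.2 + 1 : ℕ) : ℚ) + ((3 : ℕ) : ℚ) = 8
  rw [this]; norm_num

lemma tri_diff_cnt (b : Bool) : ∃ i : ℚ, 0 ≤ i ∧ i ≤ 27 ∧
    cnt b (cyc 3) (∅ : Set (ZMod 3)) - cnt b (cyc 3) {(0 : ZMod 3)} = i := by
  refine ⟨_, ?_, ?_, rfl⟩
  · have := cnt_le_empty b (cyc 3) {(0 : ZMod 3)}; linarith
  · have h1 := cnt_cyc_le le_rfl b (∅ : Set (ZMod 3))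
    have h2 := cnt_nonneg b (cyc 3) {(0 : ZMod 3)}
    norm_num at h1
    linarith

lemma tri_diff_tot (b : Bool) : ∃ i : ℚ, 0 ≤ i ∧ i ≤ 81 ∧
    tot b (cyc 3) (∅ : Set (ZMod 3)) - tot b (cyc 3) {(0 : ZMod 3)} = i := by
  refine ⟨_, ?_, ?_, rfl⟩
  · classical
    have : Sav (fun n => (n : ℚ)) b (cyc 3) (∅ : Set (ZMod 3)) 0 =
      tot b (cyc 3) (∅ : Set (ZMod 3)) - tot b (cyc 3) {(0 : ZMod 3)} := by
      rw [Sav_eq, insert_empty_eq]; rfl
    rw [← this]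
    unfold Sav
    exact sum_nonneg fun _ _ => Nat.cast_nonneg _
  · have h1 := tot_cyc_le le_rfl b (∅ : Set (ZMod 3))
    have h2 := tot_nonneg b (cyc 3) {(0 : ZMod 3)}
    norm_num at h1
    linarith

/-- values for the induced family -/
def al' (a L : ℕ) : ℚ := al (a - 1) (L - 1) + 1

/-- values for the induced family -/
def ta' (a L : ℕ) : ℚ := ((((L - 1 : ℕ) : ℚ) - 1) * (L - 1 : ℕ) * ((L - 1 : ℕ) + 1) / 3 +
      (a + 1) * ((L - 1 : ℕ) * ((L - 1 : ℕ) + 1) / 2)) +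
    ((((a - 1 : ℕ) : ℚ) - 1) * (a - 1 : ℕ) * ((a - 1 : ℕ) + 1) / 3 +
      (L + 1) * ((a - 1 : ℕ) * ((a - 1 : ℕ) + 1) / 2)) + (a + L)

theorem triangle_lt (hg : 3 ≤ a + L) (hL : 0 < L) (ht0 : 0 < t) (ht : t < a) (hk : 0 < k)
    (h1 : 0 < al a L) (h2 : 0 ≤ ta a L) (h3 : 0 ≤ al a L - rc a t)
    (h4 : 0 ≤ ta a L - rt a L t)
    (h1' : 0 < al' a L) (h2' : 0 ≤ ta' a L) (h3' : 0 ≤ al' a L - rc a t)
    (h4' : 0 ≤ ta' a L - rt a L t)
    (hbig : (6 * FF a L k + 8 * EE a L k + 81) *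
        ((6 * EE a L k + 27) + (2 ^ k - 1) ^ 2 * (al' a L + 3 * (al' a L - rc a t))) +
      ((2 ^ k - 1) ^ 2 * (ta a L + 5 * (ta a L - rt a L t) + 8 * (al a L - rc a t)) +
        2 * (2 ^ k - 1) * (k * 2 ^ k / 2) * (al a L + 5 * (al a L - rc a t))) *
          (6 * EE a L k + 27) <
      (2 ^ k - 1) ^ 4 * ((ta' a L + 3 * (ta' a L - rt a L t) + 4 * (al' a L - rc a t)) *
          (al a L + 5 * (al a L - rc a t)) -
        (ta a L + 5 * (ta a L - rt a L t) + 8 * (al a L - rc a t)) *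
          (al' a L + 3 * (al' a L - rc a t)))) :
    tot true (GT a L t k) ∅ / cnt true (GT a L t k) ∅ <
      tot false (GT a L t k) ∅ / cnt false (GT a L t k) ∅ := by
  classical
  obtain ⟨e1, he1, he1', hN⟩ := HB_empty_cnt a L k hg true
  obtain ⟨f1, hf1, hf1', hM⟩ := HB_empty_tot a L k hg true
  obtain ⟨e2, he2, he2', hn⟩ := HB_w_cnt a L t k hg hL ht0 ht true
  obtain ⟨f2, hf2, hf2', hm⟩ := HB_w_tot a L t k hg hL ht0 ht true
  rw [cnt_two_true a L t hg hL ht0 ht] at hN hM hn hm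
  rw [tot_two_true a L t hg hL ht0 ht] at hM hm
  obtain ⟨e3, he3, he3', hN'⟩ := HB_empty_cnt a L k hg false
  obtain ⟨f3, hf3, hf3', hM'⟩ := HB_empty_tot a L k hg false
  obtain ⟨e4, he4, he4', hn'⟩ := HB_w_cnt a L t k hg hL ht0 ht false
  obtain ⟨f4, hf4, hf4', hm'⟩ := HB_w_tot a L t k hg hL ht0 ht false
  rw [cnt_two_false a L t hg hL ht0 ht] at hN' hM' hn' hm'
  rw [tot_two_false a L t hg hL ht0 ht] at hM' hm'
  change cnt false (HB (a + L) a k) ∅ = e3 + (2 ^ k - 1) ^ 2 * al' a L at hN'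
  change cnt false (HB (a + L) a k) {wv a L t k} = e4 + (2 ^ k - 1) ^ 2 * (al' a L - rc a t) at hn'
  change tot false (HB (a + L) a k) ∅ = f3 + (2 ^ k - 1) ^ 2 * ta' a L +
    2 * (2 ^ k - 1) * (k * 2 ^ k / 2) * al' a L at hM'
  change tot false (HB (a + L) a k) {wv a L t k} = f4 + (2 ^ k - 1) ^ 2 * (ta' a L - rt a L t) +
    2 * (2 ^ k - 1) * (k * 2 ^ k / 2) * (al' a L - rc a t) at hm'
  have G := glueG_glue (HB (a + L) a k) (cyc 3) (wv a L t k) 0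
  have c1 := cnt_glue G true ∅
  have t1 := tot_glue G true ∅
  have c2 := cnt_glue G false ∅
  have t2 := tot_glue G false ∅
  rw [Set.image_empty, insert_empty_eq, if_pos rfl] at c1 t1 c2 t2
  obtain ⟨i1, hi1, hi1', hi1e⟩ := tri_diff_cnt true
  obtain ⟨i2, hi2, hi2', hi2e⟩ := tri_diff_tot true
  obtain ⟨i3, hi3, hi3', hi3e⟩ := tri_diff_cnt false
  obtain ⟨i4, hi4, hi4', hi4e⟩ := tri_diff_tot false
  rw [hi1e, tri_cnt_true, hN, hn] at c1
  rw [hi2e, tri_cnt_true, tri_tot_true, hM, hm, hn] at t1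
  rw [hi3e, tri_cnt_false, hN', hn'] at c2
  rw [hi4e, tri_cnt_false, tri_tot_false, hM', hm', hn'] at t2
  have hu : (0 : ℚ) < 2 ^ k - 1 := by
    have : (1 : ℚ) < 2 ^ k := one_lt_pow₀ (by norm_num) hk.ne'
    linarith
  have hcmp := compare (2 ^ k - 1) (k * 2 ^ k / 2) (al a L + 5 * (al a L - rc a t))
    (ta a L + 5 * (ta a L - rt a L t) + 8 * (al a L - rc a t))
    (al' a L + 3 * (al' a L - rc a t))
    (ta' a L + 3 * (ta' a L - rt a L t) + 4 * (al' a L - rc a t))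
    (e1 + 5 * e2 + i1) (f1 + 5 * f2 + 8 * e2 + i2) (e3 + 3 * e4 + i3) (f3 + 3 * f4 + 4 * e4 + i4)
    (6 * EE a L k + 27) (6 * FF a L k + 8 * EE a L k + 81)
    hu (by positivity) (by linarith) (by linarith) (by linarith) (by linarith)
    (by linarith) (by linarith) (by linarith) (by linarith) (by linarith) (by linarith) hbig
  rw [c1, t1, c2, t2]
  refine lt_of_eq_of_lt ?_ (lt_of_lt_of_eq hcmp ?_)
  · congr 1
    · ring
    · ring
  · congr 1
    · ring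
    · ring

end

end Q105.SubT
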