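import Pool.Agent.Q105.SubT.Basic

set_option autoImplicit false

/-!
# Connected subgraphs of a graph glued at a vertex
-/

open SimpleGraph

namespace Q105.SubT

variable {V V1 V2 : Type*}

/-- `G` is the union of copies of `G1` and `G2` that share exactly one vertex. -/
structure Glue {G : SimpleGraph V} {G1 : SimpleGraph V1} {G2 : SimpleGraph V2}
    (e1 : G1 ↪g G) (e2 : G2 ↪g G) (r1 : V1) (r2 : V2) : Prop where
  root : e1 r1 = e2 r2
  meet : ∀ v1 v2, e1 v1 = e2 v2 → v1 = r1 ∧ v2 = r2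
  cover : ∀ x, (∃ v, e1 v = x) ∨ (∃ v, e2 v = x)
  edge : ∀ x y, G.Adj x y → (∃ u v, e1 u = x ∧ e1 v = y) ∨ (∃ u v, e2 u = x ∧ e2 v = y)

lemma Glue.symm {G : SimpleGraph V} {G1 : SimpleGraph V1} {G2 : SimpleGraph V2}
    {e1 : G1 ↪g G} {e2 : G2 ↪g G} {r1 : V1} {r2 : V2} (h : Glue e1 e2 r1 r2) :
    Glue e2 e1 r2 r1 where
  root := h.root.symm
  meet v2 v1 hv := (h.meet v1 v2 hv.symm).symm
  cover x := (h.cover x).symm
  edge x y hxy := (h.edge x y hxy).symm

section

variable {G : SimpleGraph V} {G1 : SimpleGraph V1} {G2 : SimpleGraph V2}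
  {e1 : G1 ↪g G} {e2 : G2 ↪g G} {r1 : V1} {r2 : V2}

/-- the glued subgraph -/
def join (e1 : G1 ↪g G) (e2 : G2 ↪g G) (T1 : G1.Subgraph) (T2 : G2.Subgraph) : G.Subgraph :=
  T1.map e1.toHom ⊔ T2.map e2.toHom

lemma join_symm (T1 : G1.Subgraph) (T2 : G2.Subgraph) : join e1 e2 T1 T2 = join e2 e1 T2 T1 :=
  sup_comm _ _

lemma comap_join (h : Glue e1 e2 r1 r2) (T1 : G1.Subgraph) (T2 : G2.Subgraph)
    (h1 : r1 ∈ T1.verts) : (join e1 e2 T1 T2).comap e1.toHom = T1 := by
  ext u v
  · rw [mem_comap_verts]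
    constructor
    · rintro (hu | ⟨w, hw, hwu⟩)
      · exact (mem_map_verts e1 T1 u).1 hu
      · have := h.meet u w hwu.symm
        rw [this.1]; exact h1
    · intro hu
      exact Or.inl ((mem_map_verts e1 T1 u).2 hu)
  · rw [comap_adj]
    constructor
    · rintro (huv | ⟨a, b, hab, ha, hb⟩)
      · exact (map_adj e1 T1 u v).1 huv
      · have h1 := h.meet u a ha.symm
        have h2 := h.meet v b hb.symm
        rw [h1.2, h2.2] at hab
        exact absurd rfl hab.ne
    · intro huv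
      exact Or.inl ((map_adj e1 T1 u v).2 huv)

lemma comap_join' (h : Glue e1 e2 r1 r2) (T1 : G1.Subgraph) (T2 : G2.Subgraph)
    (h2 : r2 ∈ T2.verts) : (join e1 e2 T1 T2).comap e2.toHom = T2 := by
  rw [join_symm]
  exact comap_join h.symm T2 T1 h2

lemma join_connected (h : Glue e1 e2 r1 r2) (T1 : G1.Subgraph) (T2 : G2.Subgraph)
    (h1 : r1 ∈ T1.verts) (h2 : r2 ∈ T2.verts) (c1 : T1.Connected) (c2 : T2.Connected) :
    (join e1 e2 T1 T2).Connected := by
  apply Subgraph.connected_sup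
  · exact ((connected_map e1 T1).2 c1).preconnected
  · exact ((connected_map e2 T2).2 c2).preconnected
  · refine ⟨e1 r1, ?_, ?_⟩
    · exact (mem_map_verts e1 T1 r1).2 h1
    · rw [h.root]
      exact (mem_map_verts e2 T2 r2).2 h2

lemma join_verts (T1 : G1.Subgraph) (T2 : G2.Subgraph) :
    (join e1 e2 T1 T2).verts = e1 '' T1.verts ∪ e2 '' T2.verts := rfl

lemma join_inter (h : Glue e1 e2 r1 r2) (T1 : G1.Subgraph) (T2 : G2.Subgraph)
    (h1 : r1 ∈ T1.verts) (h2 : r2 ∈ T2.verts) :
    e1 '' T1.verts ∩ e2 '' T2.verts = {e1 r1} := by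
  ext x
  constructor
  · rintro ⟨⟨u, hu, rfl⟩, ⟨v, hv, hvu⟩⟩
    rw [(h.meet u v hvu.symm).1]; rfl
  · rintro rfl
    exact ⟨⟨r1, h1, rfl⟩, ⟨r2, h2, h.root.symm⟩⟩

lemma join_ncard [Finite V1] [Finite V2] (h : Glue e1 e2 r1 r2) (T1 : G1.Subgraph)
    (T2 : G2.Subgraph) (h1 : r1 ∈ T1.verts) (h2 : r2 ∈ T2.verts) :
    (join e1 e2 T1 T2).verts.ncard + 1 = T1.verts.ncard + T2.verts.ncard := by
  have := Set.ncard_union_add_ncard_inter (e1 '' T1.verts) (e2 '' T2.verts)
    (Set.toFinite _) (Set.toFinite _)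
  rw [join_inter h T1 T2 h1 h2, Set.ncard_singleton,
    Set.ncard_image_of_injective _ e1.injective, Set.ncard_image_of_injective _ e2.injective] at this
  exact this

/-- number of edges of the coerced graph -/
lemma card_coe_edgeSet {G : SimpleGraph V} (T : G.Subgraph) :
    Nat.card T.coe.edgeSet = T.edgeSet.ncard := by
  rw [← Subgraph.image_coe_edgeSet_coe, Set.ncard_image_of_injective _
    (Sym2.map.injective Subtype.val_injective)]
  exact Nat.card_coe_set_eq _

lemma card_coe_verts {G : SimpleGraph V} (T : G.Subgraph) :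
    Nat.card T.verts = T.verts.ncard := Nat.card_coe_set_eq _

/-- Subtrees by counting. -/
lemma isTree_iff {G : SimpleGraph V} [Finite V] (T : G.Subgraph) :
    T.coe.IsTree ↔ T.Connected ∧ T.edgeSet.ncard + 1 = T.verts.ncard := by
  rw [isTree_iff_connected_and_card, card_coe_edgeSet, card_coe_verts, Subgraph.connected_iff']

lemma acyclic_of_card {G : SimpleGraph V} [Finite V] (T : G.Subgraph) (hc : T.Connected)
    (h : T.edgeSet.ncard + 1 ≤ T.verts.ncard) : T.coe.IsAcyclic := by
  have h1 := (Subgraph.connected_iff'.1 hc).card_vert_le_card_edgeSet_add_one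
  rw [card_coe_edgeSet, card_coe_verts] at h1
  exact ((isTree_iff T).2 ⟨hc, le_antisymm h h1⟩).isAcyclic

lemma card_of_acyclic {G : SimpleGraph V} [Finite V] (T : G.Subgraph) (hc : T.Connected)
    (h : T.coe.IsAcyclic) : T.edgeSet.ncard + 1 = T.verts.ncard :=
  ((isTree_iff T).1 ⟨Subgraph.connected_iff'.1 hc, h⟩).2

lemma join_prp [Finite V] [Finite V1] [Finite V2] (h : Glue e1 e2 r1 r2) (b : Bool)
    (T1 : G1.Subgraph) (T2 : G2.Subgraph) (h1 : r1 ∈ T1.verts) (h2 : r2 ∈ T2.verts)
    (c1 : T1.Connected) (c2 : T2.Connected) (p1 : Prp b T1) (p2 : Prp b T2) :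
    Prp b (join e1 e2 T1 T2) := by
  cases b
  · intro x hx y hy hxy
    rcases h.edge x y hxy with ⟨u, v, rfl, rfl⟩ | ⟨u, v, rfl, rfl⟩
    · have hu : u ∈ T1.verts := by
        rw [← comap_join h T1 T2 h1]; exact hx
      have hv : v ∈ T1.verts := by
        rw [← comap_join h T1 T2 h1]; exact hy
      exact Or.inl ((map_adj e1 T1 u v).2 (p1 hu hv (e1.map_adj_iff.1 hxy)))
    · have hu : u ∈ T2.verts := by
        rw [← comap_join' h T1 T2 h2]; exact hx
      have hv : v ∈ T2.verts := by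
        rw [← comap_join' h T1 T2 h2]; exact hy
      exact Or.inr ((map_adj e2 T2 u v).2 (p2 hu hv (e2.map_adj_iff.1 hxy)))
  · apply acyclic_of_card _ (join_connected h T1 T2 h1 h2 c1 c2)
    have k1 := card_of_acyclic T1 c1 p1
    have k2 := card_of_acyclic T2 c2 p2
    have k3 := join_ncard h T1 T2 h1 h2
    have k4 : (join e1 e2 T1 T2).edgeSet.ncard ≤ T1.edgeSet.ncard + T2.edgeSet.ncard := by
      unfold join
      rw [Subgraph.edgeSet_sup, Subgraph.edgeSet_map, Subgraph.edgeSet_map]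
      refine (Set.ncard_union_le _ _).trans ?_
      exact add_le_add (Set.ncard_image_le (Set.toFinite _)) (Set.ncard_image_le (Set.toFinite _))
    omega

/-- Reachability of the root inside the two parts. -/
lemma reach_parts (h : Glue e1 e2 r1 r2) (T : G.Subgraph) (hc : T.Connected)
    (hr : e1 r1 ∈ T.verts) (x : T.verts) :
    (∀ v (hv : e1 v = x), (T.comap e1.toHom).coe.Reachable
      ⟨v, (mem_comap_verts e1 T v).2 (hv ▸ x.2)⟩ ⟨r1, hr⟩) ∧
    (∀ v (hv : e2 v = x), (T.comap e2.toHom).coe.Reachable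
      ⟨v, (mem_comap_verts e2 T v).2 (hv ▸ x.2)⟩ ⟨r2, (mem_comap_verts e2 T r2).2 (h.root ▸ hr)⟩) := by
  have hreach : T.coe.Reachable x ⟨e1 r1, hr⟩ := (Subgraph.connected_iff'.1 hc).preconnected _ _
  rw [reachable_iff_reflTransGen] at hreach
  induction hreach using Relation.ReflTransGen.head_induction_on with
  | refl =>
    constructor
    · intro v hv
      have : v = r1 := e1.injective hv
      subst this
      exact Reachable.refl _
    · intro v hv
      have : v = r2 := e2.injective (hv.trans h.root)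
      subst this
      exact Reachable.refl _
  | @head x y hxy hrest ih =>
    have hadj : T.Adj x y := hxy
    constructor
    · intro v hv
      by_cases hvr : v = r1
      · subst hvr; exact Reachable.refl _
      · rcases h.edge x y hadj.adj_sub with ⟨u, w, hu, hw⟩ | ⟨u, w, hu, hw⟩
        · have huv : u = v := e1.injective (hu.trans hv.symm)
          subst huv
          refine Reachable.trans ?_ (ih.1 w hw)
          apply Adj.reachable
          show (T.comap e1.toHom).Adj u w
          rw [comap_adj, hu, hw]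
          exact hadj
        · exact absurd (h.meet v u (hv.trans hu.symm)).1 hvr
    · intro v hv
      by_cases hvr : v = r2
      · subst hvr; exact Reachable.refl _
      · rcases h.edge x y hadj.adj_sub with ⟨u, w, hu, hw⟩ | ⟨u, w, hu, hw⟩
        · exact absurd (h.meet u v (hu.trans hv.symm)).2 hvr
        · have huv : u = v := e2.injective (hu.trans hv.symm)
          subst huv
          refine Reachable.trans ?_ (ih.2 w hw)
          apply Adj.reachable
          show (T.comap e2.toHom).Adj u w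
          rw [comap_adj, hu, hw]
          exact hadj

lemma comap_connected (h : Glue e1 e2 r1 r2) (T : G.Subgraph) (hc : T.Connected)
    (hr : e1 r1 ∈ T.verts) : (T.comap e1.toHom).Connected := by
  rw [Subgraph.connected_iff', connected_iff_exists_forall_reachable]
  refine ⟨⟨r1, hr⟩, ?_⟩
  rintro ⟨v, hv⟩
  exact ((reach_parts h T hc hr ⟨e1 v, hv⟩).1 v rfl).symm

lemma comap_prp (b : Bool) (T : G.Subgraph) (hp : Prp b T) : Prp b (T.comap e1.toHom) := by
  cases b
  · intro u hu v hv huv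
    exact (comap_adj e1 T u v).2 (hp hu hv (e1.map_adj_iff.2 huv))
  · refine IsAcyclic.comap (G' := T.coe) ⟨fun u => ⟨e1 u.1, u.2⟩, ?_⟩ ?_ hp
    · intro u v huv
      exact (comap_adj e1 T u v).1 huv
    · intro u v huv
      exact Subtype.ext (e1.injective (congrArg Subtype.val huv))

lemma join_comap (h : Glue e1 e2 r1 r2) (T : G.Subgraph) :
    join e1 e2 (T.comap e1.toHom) (T.comap e2.toHom) = T := by
  ext x y
  · constructor
    · rintro (⟨u, hu, rfl⟩ | ⟨u, hu, rfl⟩)
      · exact hu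
      · exact hu
    · intro hx
      rcases h.cover x with ⟨v, rfl⟩ | ⟨v, rfl⟩
      · exact Or.inl ⟨v, hx, rfl⟩
      · exact Or.inr ⟨v, hx, rfl⟩
  · constructor
    · rintro (⟨u, v, huv, rfl, rfl⟩ | ⟨u, v, huv, rfl, rfl⟩)
      · exact huv.2
      · exact huv.2
    · intro hxy
      rcases h.edge x y hxy.adj_sub with ⟨u, v, rfl, rfl⟩ | ⟨u, v, rfl, rfl⟩
      · exact Or.inl ⟨u, v, (comap_adj e1 T u v).2 hxy, rfl, rfl⟩
      · exact Or.inr ⟨u, v, (comap_adj e2 T u v).2 hxy, rfl, rfl⟩

/-- A connected subgraph avoiding the cut vertex lies in one part. -/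
lemma avoid (h : Glue e1 e2 r1 r2) (T : G.Subgraph) (hc : T.Connected)
    (hr : e1 r1 ∉ T.verts) (v0 : V1) (hv0 : e1 v0 ∈ T.verts) : T.verts ⊆ Set.range e1 := by
  intro x hx
  have hreach : T.coe.Reachable ⟨x, hx⟩ ⟨e1 v0, hv0⟩ :=
    (Subgraph.connected_iff'.1 hc).preconnected _ _
  rw [reachable_iff_reflTransGen] at hreach
  have : ∀ z : T.verts, Relation.ReflTransGen T.coe.Adj z ⟨e1 v0, hv0⟩ →
      (z : V) ∈ Set.range e1 := by
    intro z hz
    induction hz using Relation.ReflTransGen.head_induction_on with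
    | refl => exact ⟨v0, rfl⟩
    | @head a c hxy hrest ih =>
      have hadj : T.Adj a c := hxy
      rcases h.edge a c hadj.adj_sub with ⟨u, w, hu, hw⟩ | ⟨u, w, hu, hw⟩
      · exact ⟨u, hu⟩
      · exfalso
        obtain ⟨w', hw'⟩ := ih
        have := h.meet w' w (hw'.trans hw.symm)
        rw [this.1] at hw'
        exact hr (hw' ▸ c.2)
  exact this ⟨x, hx⟩ hreach

end

end Q105.SubT
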