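import Pool.Agent.Q105.SubT.Star

set_option autoImplicit false

/-!
# The graph glued from two rooted graphs
-/

open SimpleGraph

namespace Q105.SubT

variable {V1 V2 : Type} [DecidableEq V2] (G1 : SimpleGraph V1) (G2 : SimpleGraph V2)
  (r1 : V1) (r2 : V2)

/-- second inclusion -/
def inc2 : V2 → V1 ⊕ {x : V2 // x ≠ r2} :=
  fun x => if h : x = r2 then Sum.inl r1 else Sum.inr ⟨x, h⟩

lemma inc2_root : inc2 r1 r2 r2 = (Sum.inl r1 : V1 ⊕ {x : V2 // x ≠ r2}) := by
  unfold inc2; simp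

lemma inc2_ne (x : V2) (h : x ≠ r2) : inc2 r1 r2 x = (Sum.inr ⟨x, h⟩ : V1 ⊕ {x : V2 // x ≠ r2}) := by
  unfold inc2; simp [h]

lemma inc2_inl (x : V2) (v : V1) (h : Sum.inl v = inc2 r1 r2 x) : v = r1 ∧ x = r2 := by
  by_cases hx : x = r2
  · subst hx
    rw [inc2_root] at h
    exact ⟨Sum.inl_injective h, rfl⟩
  · rw [inc2_ne _ _ _ hx] at h
    exact absurd h (by simp)

lemma inc2_injective : Function.Injective (inc2 r1 r2 : V2 → V1 ⊕ {x : V2 // x ≠ r2}) := by
  intro x y h
  by_cases hx : x = r2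
  · subst hx
    rw [inc2_root] at h
    exact (inc2_inl r1 x y r1 h).2.symm
  · by_cases hy : y = r2
    · subst hy
      rw [inc2_root] at h
      exact (inc2_inl r1 y x r1 h.symm).2
    · rw [inc2_ne _ _ _ hx, inc2_ne _ _ _ hy] at h
      exact congrArg Subtype.val (Sum.inr_injective h)

/-- the glued graph -/
def glueG : SimpleGraph (V1 ⊕ {x : V2 // x ≠ r2}) where
  Adj x y := (∃ u v, G1.Adj u v ∧ Sum.inl u = x ∧ Sum.inl v = y) ∨
    (∃ u v, G2.Adj u v ∧ inc2 r1 r2 u = x ∧ inc2 r1 r2 v = y)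
  symm := ⟨by
    rintro x y (⟨u, v, h, hu, hv⟩ | ⟨u, v, h, hu, hv⟩)
    · exact Or.inl ⟨v, u, h.symm, hv, hu⟩
    · exact Or.inr ⟨v, u, h.symm, hv, hu⟩⟩
  loopless := ⟨by
    rintro x (⟨u, v, h, hu, hv⟩ | ⟨u, v, h, hu, hv⟩)
    · exact h.ne (Sum.inl_injective (hu.trans hv.symm))
    · exact h.ne (inc2_injective r1 r2 (hu.trans hv.symm))⟩

/-- first embedding -/
def emb1 : G1 ↪g glueG G1 G2 r1 r2 where
  toFun := Sum.inl
  inj' := Sum.inl_injective
  map_rel_iff' := by
    intro u v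
    constructor
    · rintro (⟨a, b, h, ha, hb⟩ | ⟨a, b, h, ha, hb⟩)
      · have ha' := Sum.inl_injective ha
        have hb' := Sum.inl_injective hb
        rw [← ha', ← hb']
        exact h
      · have h1 := (inc2_inl r1 r2 a u ha.symm).2
        have h2 := (inc2_inl r1 r2 b v hb.symm).2
        exact absurd (h1.trans h2.symm) h.ne
    · intro h
      exact Or.inl ⟨u, v, h, rfl, rfl⟩

/-- second embedding -/
def emb2 : G2 ↪g glueG G1 G2 r1 r2 where
  toFun := inc2 r1 r2
  inj' := inc2_injective r1 r2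
  map_rel_iff' := by
    intro u v
    constructor
    · rintro (⟨a, b, h, ha, hb⟩ | ⟨a, b, h, ha, hb⟩)
      · have h1 := (inc2_inl r1 r2 u a ha).1
        have h2 := (inc2_inl r1 r2 v b hb).1
        exact absurd (h1.trans h2.symm) h.ne
      · have ha' := inc2_injective r1 r2 ha
        have hb' := inc2_injective r1 r2 hb
        rw [← ha', ← hb']
        exact h
    · intro h
      exact Or.inr ⟨u, v, h, rfl, rfl⟩

lemma emb1_apply (v : V1) : emb1 G1 G2 r1 r2 v = Sum.inl v := rfl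

lemma emb2_apply (v : V2) : emb2 G1 G2 r1 r2 v = inc2 r1 r2 v := rfl

theorem glueG_glue : Glue (emb1 G1 G2 r1 r2) (emb2 G1 G2 r1 r2) r1 r2 where
  root := (inc2_root r1 r2).symm
  meet v1 v2 h := inc2_inl r1 r2 v2 v1 h
  cover x := by
    rcases x with v | ⟨v, hv⟩
    · exact Or.inl ⟨v, rfl⟩
    · exact Or.inr ⟨v, inc2_ne r1 r2 v hv⟩
  edge x y h := by
    rcases h with ⟨u, v, _, hu, hv⟩ | ⟨u, v, _, hu, hv⟩
    · exact Or.inl ⟨u, v, hu, hv⟩
    · exact Or.inr ⟨u, v, hu, hv⟩

lemma glueG_connected (h1 : G1.Connected) (h2 : G2.Connected) :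
    (glueG G1 G2 r1 r2).Connected := by
  have c1 : (⊤ : G1.Subgraph).Connected := by
    rw [Subgraph.connected_iff']
    exact (Subgraph.topIso.connected_iff).2 h1
  have c2 : (⊤ : G2.Subgraph).Connected := by
    rw [Subgraph.connected_iff']
    exact (Subgraph.topIso.connected_iff).2 h2
  have h := join_connected (glueG_glue G1 G2 r1 r2) ⊤ ⊤ (Set.mem_univ _) (Set.mem_univ _) c1 c2
  have htop : (⊤ : (glueG G1 G2 r1 r2).Subgraph).Connected := by
    refine h.mono le_top ?_
    ext x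
    constructor
    · intro _; exact Set.mem_univ _
    · intro _
      rcases (glueG_glue G1 G2 r1 r2).cover x with ⟨v, rfl⟩ | ⟨v, rfl⟩
      · exact Or.inl ⟨v, Set.mem_univ _, rfl⟩
      · exact Or.inr ⟨v, Set.mem_univ _, rfl⟩
  rw [Subgraph.connected_iff'] at htop
  exact (Subgraph.topIso.connected_iff).1 htop

variable [Finite V1] [Finite V2]

/-- Attaching `k` leaves. -/
theorem cnt_addStar (k : ℕ) (b : Bool) (X : Set V1) :
    cnt b (glueG G1 (star k) r1 none) (emb1 G1 (star k) r1 none '' X) =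
      cnt b G1 X + (2 ^ k - 1) * cnt b G1 (insert r1 X) +
        (by classical exact if X = ∅ then (k : ℚ) else 0) := by
  classical
  rw [cnt_glue (glueG_glue G1 (star k) r1 none)]
  have h := star_diff (k := k) (fun _ => (1 : ℚ)) b
  have h' : cnt b (star k) ∅ - cnt b (star k) {none} = k := by
    unfold cnt; rw [h]; ring
  rw [h', cnt_star]
  ring

theorem tot_addStar (k : ℕ) (b : Bool) (X : Set V1) :
    tot b (glueG G1 (star k) r1 none) (emb1 G1 (star k) r1 none '' X) =
      tot b G1 X + (2 ^ k - 1) * tot b G1 (insert r1 X) +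
        (k * 2 ^ k / 2) * cnt b G1 (insert r1 X) +
        (by classical exact if X = ∅ then (k : ℚ) else 0) := by
  classical
  rw [tot_glue (glueG_glue G1 (star k) r1 none)]
  have h := star_diff (k := k) (fun n => (n : ℚ)) b
  have h' : tot b (star k) ∅ - tot b (star k) {none} = k := by
    unfold tot; rw [h]; simp
  rw [h', cnt_star, tot_star]
  ring

end Q105.SubT
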