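import Pool.Agent.Q105.SubT.GlueGraph
import Pool.Agent.Q105.SubT.CycleTwo

set_option autoImplicit false

/-!
# The cycle with two bunches of leaves
-/

open SimpleGraph

namespace Q105.SubT

/-- The cycle with `k` leaves at `0`. -/
abbrev HA (g k : ℕ) : SimpleGraph (ZMod g ⊕ {x : Option (Fin k) // x ≠ none}) :=
  glueG (cyc g) (star k) 0 none

/-- The cycle with `k` leaves at `0` and `k` leaves at `a`. -/
abbrev HB (g a k : ℕ) : SimpleGraph ((ZMod g ⊕ {x : Option (Fin k) // x ≠ none}) ⊕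
    {x : Option (Fin k) // x ≠ none}) :=
  glueG (HA g k) (star k) (Sum.inl (a : ZMod g)) none

variable {g : ℕ} [NeZero g] (a k : ℕ)

open Classical in
lemma cnt_HA (b : Bool) (X : Set (ZMod g)) :
    cnt b (HA g k) (emb1 (cyc g) (star k) 0 none '' X) =
      cnt b (cyc g) X + (2 ^ k - 1) * cnt b (cyc g) (insert 0 X) + (if X = ∅ then (k : ℚ) else 0) :=
  cnt_addStar (cyc g) 0 k b X

open Classical in
lemma tot_HA (b : Bool) (X : Set (ZMod g)) :
    tot b (HA g k) (emb1 (cyc g) (star k) 0 none '' X) =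
      tot b (cyc g) X + (2 ^ k - 1) * tot b (cyc g) (insert 0 X) +
        (k * 2 ^ k / 2) * cnt b (cyc g) (insert 0 X) + (if X = ∅ then (k : ℚ) else 0) :=
  tot_addStar (cyc g) 0 k b X

open Classical in
lemma cnt_HB (b : Bool) (X : Set (ZMod g)) :
    cnt b (HB g a k) (emb1 (HA g k) (star k) (Sum.inl (a : ZMod g)) none ''
      (emb1 (cyc g) (star k) 0 none '' X)) =
      (cnt b (cyc g) X + (2 ^ k - 1) * cnt b (cyc g) (insert 0 X) + (if X = ∅ then (k : ℚ) else 0)) +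
      (2 ^ k - 1) * (cnt b (cyc g) (insert (a : ZMod g) X) +
        (2 ^ k - 1) * cnt b (cyc g) (insert 0 (insert (a : ZMod g) X))) +
      (if X = ∅ then (k : ℚ) else 0) := by
  rw [cnt_addStar]
  have h1 : (insert (Sum.inl (a : ZMod g)) (emb1 (cyc g) (star k) 0 none '' X)) =
      emb1 (cyc g) (star k) 0 none '' (insert (a : ZMod g) X) := by
    rw [Set.image_insert_eq]; rfl
  rw [h1, cnt_HA, cnt_HA, if_neg (Set.insert_nonempty (a : ZMod g) X).ne_empty]
  have h2 : (emb1 (cyc g) (star k) 0 none '' X = ∅) ↔ X = ∅ := Set.image_eq_empty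
  simp only [h2, add_zero]

open Classical in
lemma tot_HB (b : Bool) (X : Set (ZMod g)) :
    tot b (HB g a k) (emb1 (HA g k) (star k) (Sum.inl (a : ZMod g)) none ''
      (emb1 (cyc g) (star k) 0 none '' X)) =
      (tot b (cyc g) X + (2 ^ k - 1) * tot b (cyc g) (insert 0 X) +
        (k * 2 ^ k / 2) * cnt b (cyc g) (insert 0 X) + (if X = ∅ then (k : ℚ) else 0)) +
      (2 ^ k - 1) * (tot b (cyc g) (insert (a : ZMod g) X) +
        (2 ^ k - 1) * tot b (cyc g) (insert 0 (insert (a : ZMod g) X)) +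
        (k * 2 ^ k / 2) * cnt b (cyc g) (insert 0 (insert (a : ZMod g) X))) +
      (k * 2 ^ k / 2) * (cnt b (cyc g) (insert (a : ZMod g) X) +
        (2 ^ k - 1) * cnt b (cyc g) (insert 0 (insert (a : ZMod g) X))) +
      (if X = ∅ then (k : ℚ) else 0) := by
  rw [tot_addStar]
  have h1 : (insert (Sum.inl (a : ZMod g)) (emb1 (cyc g) (star k) 0 none '' X)) =
      emb1 (cyc g) (star k) 0 none '' (insert (a : ZMod g) X) := by
    rw [Set.image_insert_eq]; rfl
  rw [h1, cnt_HA, tot_HA, tot_HA, if_neg (Set.insert_nonempty (a : ZMod g) X).ne_empty]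
  have h2 : (emb1 (cyc g) (star k) 0 none '' X = ∅) ↔ X = ∅ := Set.image_eq_empty
  simp only [h2, add_zero]

/-- Count of members through the vertices of `X`, main term and error term. -/
theorem cnt_bound (hg : 3 ≤ g) (b : Bool) (X : Set (ZMod g)) :
    ∃ e : ℚ, 0 ≤ e ∧ e ≤ (g : ℚ) ^ 3 + 2 * (2 ^ k - 1) * (g : ℚ) ^ 3 + 2 * k ∧
    cnt b (HB g a k) (emb1 (HA g k) (star k) (Sum.inl (a : ZMod g)) none ''
      (emb1 (cyc g) (star k) 0 none '' X)) =
      e + (2 ^ k - 1) ^ 2 * cnt b (cyc g) (insert 0 (insert (a : ZMod g) X)) := by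
  classical
  refine ⟨cnt b (cyc g) X + (2 ^ k - 1) * cnt b (cyc g) (insert 0 X) +
    (2 ^ k - 1) * cnt b (cyc g) (insert (a : ZMod g) X) + 2 * (if X = ∅ then (k : ℚ) else 0),
    ?_, ?_, ?_⟩
  · have h1 : (0 : ℚ) ≤ 2 ^ k - 1 := by
      have : (1 : ℚ) ≤ 2 ^ k := one_le_pow₀ (by norm_num)
      linarith
    have h2 : (0 : ℚ) ≤ if X = ∅ then (k : ℚ) else 0 := by split_ifs <;> positivity
    have := cnt_nonneg b (cyc g) X
    have := cnt_nonneg b (cyc g) (insert 0 X)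
    have := cnt_nonneg b (cyc g) (insert (a : ZMod g) X)
    positivity
  · have h1 : (0 : ℚ) ≤ 2 ^ k - 1 := by
      have : (1 : ℚ) ≤ 2 ^ k := one_le_pow₀ (by norm_num)
      linarith
    have h2 : (if X = ∅ then (k : ℚ) else 0) ≤ k := by
      split_ifs
      · exact le_rfl
      · positivity
    have h3 := cnt_cyc_le hg b X
    have h4 := mul_le_mul_of_nonneg_left (cnt_cyc_le hg b (insert 0 X)) h1
    have h5 := mul_le_mul_of_nonneg_left (cnt_cyc_le hg b (insert (a : ZMod g) X)) h1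
    linarith
  · rw [cnt_HB]; ring

theorem tot_bound (hg : 3 ≤ g) (b : Bool) (X : Set (ZMod g)) :
    ∃ f : ℚ, 0 ≤ f ∧ f ≤ (g : ℚ) ^ 4 + 2 * (2 ^ k - 1) * (g : ℚ) ^ 4 +
      2 * (k * 2 ^ k / 2) * (g : ℚ) ^ 3 + 2 * k ∧
    tot b (HB g a k) (emb1 (HA g k) (star k) (Sum.inl (a : ZMod g)) none ''
      (emb1 (cyc g) (star k) 0 none '' X)) =
      f + (2 ^ k - 1) ^ 2 * tot b (cyc g) (insert 0 (insert (a : ZMod g) X)) +
        2 * (2 ^ k - 1) * (k * 2 ^ k / 2) * cnt b (cyc g) (insert 0 (insert (a : ZMod g) X)) := by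
  classical
  refine ⟨tot b (cyc g) X + (2 ^ k - 1) * tot b (cyc g) (insert 0 X) +
    (2 ^ k - 1) * tot b (cyc g) (insert (a : ZMod g) X) +
    (k * 2 ^ k / 2) * cnt b (cyc g) (insert 0 X) +
    (k * 2 ^ k / 2) * cnt b (cyc g) (insert (a : ZMod g) X) +
    2 * (if X = ∅ then (k : ℚ) else 0), ?_, ?_, ?_⟩
  · have h1 : (0 : ℚ) ≤ 2 ^ k - 1 := by
      have : (1 : ℚ) ≤ 2 ^ k := one_le_pow₀ (by norm_num)
      linarith
    have h2 : (0 : ℚ) ≤ if X = ∅ then (k : ℚ) else 0 := by split_ifs <;> positivity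
    have := cnt_nonneg b (cyc g) (insert 0 X)
    have := cnt_nonneg b (cyc g) (insert (a : ZMod g) X)
    have := tot_nonneg b (cyc g) X
    have := tot_nonneg b (cyc g) (insert 0 X)
    have := tot_nonneg b (cyc g) (insert (a : ZMod g) X)
    positivity
  · have h1 : (0 : ℚ) ≤ 2 ^ k - 1 := by
      have : (1 : ℚ) ≤ 2 ^ k := one_le_pow₀ (by norm_num)
      linarith
    have h1' : (0 : ℚ) ≤ (k * 2 ^ k / 2) := by positivity
    have h2 : (if X = ∅ then (k : ℚ) else 0) ≤ k := by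
      split_ifs
      · exact le_rfl
      · positivity
    have h3 := tot_cyc_le hg b X
    have h4 := mul_le_mul_of_nonneg_left (tot_cyc_le hg b (insert 0 X)) h1
    have h5 := mul_le_mul_of_nonneg_left (tot_cyc_le hg b (insert (a : ZMod g) X)) h1
    have h6 := mul_le_mul_of_nonneg_left (cnt_cyc_le hg b (insert 0 X)) h1'
    have h7 := mul_le_mul_of_nonneg_left (cnt_cyc_le hg b (insert (a : ZMod g) X)) h1'
    linarith
  · rw [tot_HB]; ring

/-- The numerical comparison of two means. -/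
lemma compare (u s c t c' t' e f e' f' E F : ℚ) (hu : 0 < u) (hs : 0 ≤ s)
    (hc : 0 < c) (hc' : 0 < c') (ht : 0 ≤ t) (ht' : 0 ≤ t')
    (he : 0 ≤ e) (_hf : 0 ≤ f) (he' : 0 ≤ e') (hf' : 0 ≤ f') (he'E : e' ≤ E)
    (hfF : f ≤ F)
    (hbig : F * (E + u ^ 2 * c') + (u ^ 2 * t + 2 * u * s * c) * E <
      u ^ 4 * (t' * c - t * c')) :
    (f + u ^ 2 * t + 2 * u * s * c) / (e + u ^ 2 * c) <
      (f' + u ^ 2 * t' + 2 * u * s * c') / (e' + u ^ 2 * c') := by
  have h1 : 0 < e + u ^ 2 * c := by positivity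
  have h2 : 0 < e' + u ^ 2 * c' := by positivity
  rw [div_lt_div_iff₀ h1 h2]
  have hF : 0 ≤ F := _hf.trans hfF
  have h3 : f * (e' + u ^ 2 * c') ≤ F * (E + u ^ 2 * c') := by
    apply mul_le_mul hfF _ h2.le hF
    linarith
  have h4 : (u ^ 2 * t + 2 * u * s * c) * e' ≤ (u ^ 2 * t + 2 * u * s * c) * E :=
    mul_le_mul_of_nonneg_left he'E (by positivity)
  have h5 : 0 ≤ f' * (e + u ^ 2 * c) + (u ^ 2 * t' + 2 * u * s * c') * e := by positivity
  nlinarith

end Q105.SubT
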