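import Pool.Agent.Q105.SubT.Count

set_option autoImplicit false

/-!
# Connected subgraphs of a star
-/

open SimpleGraph Finset

namespace Q105.SubT

/-- The star with `k` leaves. -/
abbrev star (k : ℕ) : SimpleGraph (Option (Fin k)) := starGraph none

variable {k : ℕ}

lemma star_adj_some (i : Fin k) (y : Option (Fin k)) (h : (star k).Adj (some i) y) : y = none := by
  rw [starGraph_adj] at h
  rcases h.2 with h | h
  · exact absurd h (by simp)
  · exact h

lemma adj_of_mem (T : (star k).Subgraph) (hc : T.Connected) (h0 : none ∈ T.verts) (i : Fin k)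
    (hi : some i ∈ T.verts) : T.Adj (some i) none := by
  have hreach : T.coe.Reachable ⟨some i, hi⟩ ⟨none, h0⟩ :=
    (Subgraph.connected_iff'.1 hc).preconnected _ _
  rw [reachable_iff_reflTransGen, Relation.ReflTransGen.cases_head_iff] at hreach
  rcases hreach with h | ⟨c, hc1, _⟩
  · exact absurd (congrArg Subtype.val h) (by simp)
  · have h1 : T.Adj (some i) c := hc1
    have := star_adj_some i c h1.adj_sub
    rwa [this] at h1

/-- the substar on a set of leaves -/
def sub (U : Finset (Fin k)) : (star k).Subgraph :=
  (⊤ : (star k).Subgraph).induce (insert none (some '' (U : Set (Fin k))))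

lemma sub_mem_none (U : Finset (Fin k)) : none ∈ (sub U).verts := Or.inl rfl

lemma sub_mem_some (U : Finset (Fin k)) (i : Fin k) : some i ∈ (sub U).verts ↔ i ∈ U := by
  constructor
  · rintro (h | ⟨j, hj, hji⟩)
    · exact absurd h (by simp)
    · have : j = i := Option.some_injective _ hji
      rw [← this]; exact hj
  · intro h
    exact Or.inr ⟨i, h, rfl⟩

lemma sub_connected (U : Finset (Fin k)) : (sub U).Connected := by
  rw [Subgraph.connected_iff', connected_iff_exists_forall_reachable]
  refine ⟨⟨none, sub_mem_none U⟩, ?_⟩
  rintro ⟨x, hx⟩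
  rcases x with _ | i
  · exact Reachable.refl _
  · apply Adj.reachable
    refine ⟨sub_mem_none U, hx, ?_⟩
    rw [Subgraph.top_adj, starGraph_adj]
    simp

lemma sub_prp (b : Bool) (U : Finset (Fin k)) : Prp b (sub U) := by
  cases b
  · intro x hx y hy hxy
    exact ⟨hx, hy, hxy⟩
  · exact (isAcyclic_starGraph _).subgraph _

lemma sub_of (T : (star k).Subgraph) (hc : T.Connected) (h0 : none ∈ T.verts) :
    sub (by classical exact Finset.univ.filter (fun i => some i ∈ T.verts)) = T := by
  classical
  have hv : ∀ x, x ∈ (sub (Finset.univ.filter (fun i => some i ∈ T.verts))).verts ↔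
      x ∈ T.verts := by
    intro x
    rcases x with _ | i
    · exact ⟨fun _ => h0, fun _ => sub_mem_none _⟩
    · rw [sub_mem_some]; simp
  ext x y
  · exact hv x
  · constructor
    · rintro ⟨hx, hy, hxy⟩
      rw [Subgraph.top_adj] at hxy
      have hx' := (hv x).1 hx
      have hy' := (hv y).1 hy
      rcases x with _ | i
      · rcases y with _ | j
        · exact absurd rfl hxy.ne
        · exact (adj_of_mem T hc h0 j hy').symm
      · have := star_adj_some i y hxy
        subst this
        exact adj_of_mem T hc h0 i hx'
    · intro hxy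
      exact ⟨(hv x).2 hxy.fst_mem, (hv y).2 hxy.snd_mem, hxy.adj_sub⟩

lemma sub_ncard (U : Finset (Fin k)) : (sub U).verts.ncard = U.card + 1 := by
  show (insert none (some '' (U : Set (Fin k)))).ncard = _
  rw [Set.ncard_insert_of_notMem (by simp), Set.ncard_image_of_injective _
    (Option.some_injective _), Set.ncard_coe_finset]

lemma S_star (f : ℕ → ℚ) (b : Bool) :
    S f b (star k) {none} = ∑ U : Finset (Fin k), f (U.card + 1) := by
  classical
  unfold S
  refine Finset.sum_nbij' (fun T => Finset.univ.filter (fun i => some i ∈ T.verts)) sub ?_ ?_ ?_ ?_ ?_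
  · intro T _; exact Finset.mem_univ _
  · intro U _
    rw [mem_famF]
    exact ⟨sub_connected U, sub_prp b U, Set.singleton_subset_iff.2 (sub_mem_none U)⟩
  · intro T hT
    rw [mem_famF, Set.singleton_subset_iff] at hT
    exact sub_of T hT.1 hT.2.2
  · intro U _
    ext i
    rw [Finset.mem_filter, sub_mem_some]
    simp
  · intro T hT
    rw [mem_famF, Set.singleton_subset_iff] at hT
    have := sub_ncard (Finset.univ.filter (fun i => some i ∈ T.verts))
    rw [sub_of T hT.1 hT.2.2] at this
    rw [this]

lemma Sav_star (f : ℕ → ℚ) (b : Bool) :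
    Sav f b (star k) ∅ none = k * f 1 := by
  classical
  unfold Sav
  have : ∑ T ∈ famF b (star k) ∅ with none ∉ T.verts, f T.verts.ncard =
      ∑ i : Fin k, f 1 := by
    symm
    refine Finset.sum_bij (fun i _ => (star k).singletonSubgraph (some i)) ?_ ?_ ?_ ?_
    · intro i _
      rw [Finset.mem_filter, mem_famF]
      refine ⟨⟨Subgraph.singletonSubgraph_connected, ?_, Set.empty_subset _⟩, ?_⟩
      · cases b
        · rintro x hx y hy hxy
          have hx' : x = some i := hx
          have hy' : y = some i := hy
          rw [hx', hy'] at hxy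
          exact absurd rfl hxy.ne
        · exact (isAcyclic_starGraph _).subgraph _
      · intro h
        exact absurd (show (none : Option (Fin k)) = some i from h) (by simp)
    · intro i _ j _ hij
      have h := congrArg Subgraph.verts hij
      have h2 : some i ∈ ((star k).singletonSubgraph (some j)).verts := by
        rw [← h]; exact rfl
      exact Option.some_injective _ h2
    · intro T hT
      rw [Finset.mem_filter, mem_famF] at hT
      obtain ⟨⟨hc, _, _⟩, h0⟩ := hT
      obtain ⟨x, hx⟩ := hc.nonempty
      rcases x with _ | i
      · exact absurd hx h0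
      · refine ⟨i, Finset.mem_univ _, ?_⟩
        have hnoadj : ∀ x y, ¬ T.Adj x y := by
          intro x y hxy
          rcases x with _ | j
          · exact h0 hxy.fst_mem
          · have := star_adj_some j y hxy.adj_sub
            subst this
            exact h0 hxy.snd_mem
        have hv : ∀ y ∈ T.verts, y = some i := by
          intro y hy
          have hreach : T.coe.Reachable ⟨y, hy⟩ ⟨some i, hx⟩ :=
            (Subgraph.connected_iff'.1 hc).preconnected _ _
          rw [reachable_iff_reflTransGen, Relation.ReflTransGen.cases_head_iff] at hreach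
          rcases hreach with h | ⟨c, hc1, _⟩
          · exact congrArg Subtype.val h
          · exact absurd hc1 (hnoadj _ _)
        ext p q
        · constructor
          · intro hp
            have : p = some i := hp
            rw [this]; exact hx
          · intro hp
            exact hv p hp
        · constructor
          · intro h; exact absurd h (by simp)
          · intro h; exact absurd h (hnoadj _ _)
    · intro i _
      show f 1 = f (({some i} : Set (Option (Fin k))).ncard)
      rw [Set.ncard_singleton]
  rw [this]
  simp

lemma cnt_star (b : Bool) : cnt b (star k) {none} = 2 ^ k := by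
  unfold cnt
  rw [S_star]
  simp

lemma tot_star (b : Bool) : tot b (star k) {none} = 2 ^ k + k * 2 ^ k / 2 := by
  unfold tot
  rw [S_star]
  push_cast
  rw [Finset.sum_add_distrib]
  have h : ∑ U : Finset (Fin k), (U.card : ℚ) = ∑ U : Finset (Fin k), ((k : ℚ) - U.card) := by
    refine Fintype.sum_equiv (Equiv.ofBijective _ (compl_involutive (α := Finset (Fin k))).bijective)
      _ _ fun U => ?_
    show (U.card : ℚ) = (k : ℚ) - (Uᶜ.card : ℚ)
    rw [Finset.card_compl, Fintype.card_fin, Nat.cast_sub (by simpa using Finset.card_le_univ U)]
    ring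
  have h2 : ∑ U : Finset (Fin k), (1 : ℚ) = 2 ^ k := by simp
  have h3 : ∑ U : Finset (Fin k), ((k : ℚ) - U.card) = k * 2 ^ k - ∑ U : Finset (Fin k), (U.card : ℚ) := by
    rw [Finset.sum_sub_distrib]
    congr 1
    simp
    ring
  rw [h2]
  linarith

lemma star_diff (f : ℕ → ℚ) (b : Bool) :
    S f b (star k) ∅ - S f b (star k) {none} = k * f 1 := by
  have h := Sav_eq f b (star k) ∅ none
  rw [Sav_star] at h
  rw [h]
  simp

end Q105.SubT
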