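import Pool.Agent.Q105.SubT.HGraph

set_option autoImplicit false

/-!
# Closed forms
-/

open SimpleGraph Finset

namespace Q105.SubT

lemma sum_lin' (n a : ℕ) : ∑ p ∈ Idx n, ((p.1 + p.2 + a + 1 : ℕ) : ℚ) =
    ((n : ℚ) - 1) * n * (n + 1) / 3 + (a + 1) * (n * (n + 1) / 2) := by
  have h := sum_Idx_lin n ((a : ℚ) + 1)
  rw [← h]
  refine sum_congr rfl fun p _ => ?_
  push_cast; ring

section

variable (a L t : ℕ) [NeZero (a + L)] (hg : 3 ≤ a + L) (hL : 0 < L) (ht0 : 0 < t) (ht : t < a)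

/-- number of trees through 0 and a -/
def al (a L : ℕ) : ℚ := L * (L + 1) / 2 + a * (a + 1) / 2

/-- total order of the trees through 0 and a -/
def ta (a L : ℕ) : ℚ := (((L : ℚ) - 1) * L * (L + 1) / 3 + (a + 1) * (L * (L + 1) / 2)) +
  (((a : ℚ) - 1) * a * (a + 1) / 3 + (L + 1) * (a * (a + 1) / 2))

/-- correction for the vertex t, count -/
def rc (a t : ℕ) : ℚ := ((a - t : ℕ) : ℚ) * t

/-- correction for the vertex t, total order -/
def rt (a L t : ℕ) : ℚ := t * (((a - t : ℕ) : ℚ) * (((a - t : ℕ) : ℚ) - 1) / 2) +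
  ((a - t : ℕ) : ℚ) * (t * ((t : ℚ) - 1) / 2) + ((a - t : ℕ) : ℚ) * t * (L + 1)

include hg hL ht0 ht

lemma cnt_two_true : cnt true (cyc (a + L)) {0, (a : ZMod (a + L))} = al a L := by
  unfold cnt
  rw [S_two a L hg (by omega) hL]
  show ∑ _p ∈ Idx L, (1 : ℚ) + ∑ _p ∈ Idx a, (1 : ℚ) = _
  rw [sum_Idx_one, sum_Idx_one]
  rfl

lemma tot_two_true : tot true (cyc (a + L)) {0, (a : ZMod (a + L))} = ta a L := by
  unfold tot
  rw [S_two a L hg (by omega) hL]
  show ∑ p ∈ Idx L, ((p.1 + p.2 + a + 1 : ℕ) : ℚ) + ∑ p ∈ Idx a, ((p.1 + p.2 + L + 1 : ℕ) : ℚ) = _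
  rw [sum_lin', sum_lin']
  rfl

lemma cnt_two_false : cnt false (cyc (a + L)) {0, (a : ZMod (a + L))} =
    al (a - 1) (L - 1) + 1 := by
  unfold cnt
  rw [S_two a L hg (by omega) hL]
  show ∑ _p ∈ Idx (L - 1), (1 : ℚ) + ∑ _p ∈ Idx (a - 1), (1 : ℚ) + 1 = _
  rw [sum_Idx_one, sum_Idx_one]
  rfl

lemma tot_two_false : tot false (cyc (a + L)) {0, (a : ZMod (a + L))} =
    ((((L - 1 : ℕ) : ℚ) - 1) * (L - 1 : ℕ) * ((L - 1 : ℕ) + 1) / 3 +
      (a + 1) * ((L - 1 : ℕ) * ((L - 1 : ℕ) + 1) / 2)) +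
    ((((a - 1 : ℕ) : ℚ) - 1) * (a - 1 : ℕ) * ((a - 1 : ℕ) + 1) / 3 +
      (L + 1) * ((a - 1 : ℕ) * ((a - 1 : ℕ) + 1) / 2)) + (a + L) := by
  unfold tot
  rw [S_two a L hg (by omega) hL]
  show ∑ p ∈ Idx (L - 1), ((p.1 + p.2 + a + 1 : ℕ) : ℚ) +
    ∑ p ∈ Idx (a - 1), ((p.1 + p.2 + L + 1 : ℕ) : ℚ) + ((a + L - 1 + 1 : ℕ) : ℚ) = _
  rw [sum_lin', sum_lin']
  have : a + L - 1 + 1 = a + L := by omega
  rw [this]
  push_cast
  ring

lemma cnt_three (b : Bool) :
    cnt b (cyc (a + L)) (insert 0 (insert (a : ZMod (a + L)) {(t : ZMod (a + L))})) =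
      cnt b (cyc (a + L)) {0, (a : ZMod (a + L))} - rc a t := by
  have e : (insert 0 (insert (a : ZMod (a + L)) {(t : ZMod (a + L))}) : Set (ZMod (a + L))) =
      insert (t : ZMod (a + L)) {0, (a : ZMod (a + L))} := by
    ext x; simp only [Set.mem_insert_iff, Set.mem_singleton_iff]; tauto
  rw [e]
  unfold cnt
  rw [S_three a L t hg hL ht0 ht, S_two a L hg (by omega) hL, rect_one]
  rfl

lemma tot_three (b : Bool) :
    tot b (cyc (a + L)) (insert 0 (insert (a : ZMod (a + L)) {(t : ZMod (a + L))})) =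
      tot b (cyc (a + L)) {0, (a : ZMod (a + L))} - rt a L t := by
  have e : (insert 0 (insert (a : ZMod (a + L)) {(t : ZMod (a + L))}) : Set (ZMod (a + L))) =
      insert (t : ZMod (a + L)) {0, (a : ZMod (a + L))} := by
    ext x; simp only [Set.mem_insert_iff, Set.mem_singleton_iff]; tauto
  rw [e]
  unfold tot
  rw [S_three a L t hg hL ht0 ht, S_two a L hg (by omega) hL]
  congr 1
  have h := rect_lin (a - t) t ((L : ℚ) + 1)
  unfold rt
  rw [← h]
  refine sum_congr rfl fun i _ => sum_congr rfl fun j _ => ?_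
  push_cast; ring

end

section Mean

variable {V : Type*} [Finite V] (G : SimpleGraph V)

omit [Finite V] in
lemma fam_true : {T : G.Subgraph | T.coe.IsTree} = Fam true G ∅ := by
  ext T
  constructor
  · intro h
    exact ⟨Subgraph.connected_iff'.2 h.connected, h.isAcyclic, Set.empty_subset _⟩
  · rintro ⟨h1, h2, _⟩
    exact ⟨Subgraph.connected_iff'.1 h1, h2⟩

lemma cnt_eq_ncard (b : Bool) (X : Set V) : cnt b G X = (Fam b G X).ncard := by
  unfold cnt S famF
  rw [sum_const, nsmul_eq_mul, mul_one, Set.ncard_eq_toFinset_card _ (Set.toFinite _)]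

lemma tot_eq_finsum (b : Bool) (X : Set V) :
    tot b G X = ∑ᶠ T ∈ Fam b G X, (T.verts.ncard : ℚ) := by
  unfold tot S famF
  rw [finsum_mem_eq_finite_toFinset_sum _ (Set.toFinite _)]

/-- The mean subtree order. -/
theorem mean_true : (∑ᶠ T ∈ {T : G.Subgraph | T.coe.IsTree}, (T.verts.ncard : ℚ)) /
    ({T : G.Subgraph | T.coe.IsTree}.ncard : ℚ) = tot true G ∅ / cnt true G ∅ := by
  rw [fam_true, cnt_eq_ncard, tot_eq_finsum]

omit [Finite V] in
lemma conn_iff (U : Set V) :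
    (G.induce U).Connected ↔ ((⊤ : G.Subgraph).induce U).Connected := by
  rw [induce_eq_coe_induce_top]
  exact Subgraph.connected_iff'.symm

omit [Finite V] in
lemma bij_sets : Set.BijOn (fun T : G.Subgraph => T.verts) (Fam false G ∅)
    {U : Set V | (G.induce U).Connected} := by
  refine ⟨?_, ?_, ?_⟩
  · rintro T ⟨h1, h2, _⟩
    show (G.induce T.verts).Connected
    rw [conn_iff, Subgraph.IsInduced.induce_top_verts h2]
    exact h1
  · rintro T ⟨h1, h2, _⟩ T' ⟨h1', h2', _⟩ h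
    have e1 := Subgraph.IsInduced.induce_top_verts h2
    have e2 := Subgraph.IsInduced.induce_top_verts h2'
    rw [← e1, ← e2]
    exact congrArg _ h
  · intro U hU
    refine ⟨(⊤ : G.Subgraph).induce U, ⟨?_, ?_, Set.empty_subset _⟩, rfl⟩
    · exact (conn_iff G U).1 hU
    · intro x hx y hy hxy
      exact ⟨hx, hy, hxy⟩

/-- The mean order of a connected set. -/
theorem mean_false : (∑ᶠ U ∈ {U : Set V | (G.induce U).Connected}, (U.ncard : ℚ)) /
    ({U : Set V | (G.induce U).Connected}.ncard : ℚ) = tot false G ∅ / cnt false G ∅ := by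
  rw [cnt_eq_ncard, tot_eq_finsum]
  congr 1
  · exact (finsum_mem_eq_of_bijOn _ (bij_sets G) fun _ _ => rfl).symm
  · rw [← (bij_sets G).image_eq, Set.InjOn.ncard_image (bij_sets G).injOn]

end Mean

section Iso

variable {V V' : Type*} [Finite V] [Finite V'] {G : SimpleGraph V} {G' : SimpleGraph V'}

lemma S_iso (e : G ≃g G') (f : ℕ → ℚ) (b : Bool) : S f b G ∅ = S f b G' ∅ := by
  unfold S
  have hran : ∀ T : G'.Subgraph, T.verts ⊆ Set.range e.toEmbedding := by
    intro T x _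
    exact ⟨e.symm x, e.apply_symm_apply x⟩
  refine sum_nbij' (fun T => T.map e.toEmbedding.toHom) (fun T => T.comap e.toEmbedding.toHom)
    ?_ ?_ ?_ ?_ ?_
  · intro T hT
    rw [mem_famF] at hT ⊢
    exact ⟨(connected_map _ T).2 hT.1, (prp_map _ b T).2 hT.2.1, Set.empty_subset _⟩
  · intro T hT
    rw [mem_famF] at hT ⊢
    refine ⟨?_, comap_prp b T hT.2.1, Set.empty_subset _⟩
    rw [← connected_map e.toEmbedding, map_comap _ T (hran T)]
    exact hT.1
  · intro T _; exact comap_map _ T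
  · intro T _; exact map_comap _ T (hran T)
  · intro T _
    rw [ncard_map]

end Iso

end Q105.SubT
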